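import Mathlib

/-!
Kneser–Poulsen for `d+4` balls: basic calculus of good functions of finitely many variables.
-/

open MeasureTheory Real Set Filter Topology
open scoped ContDiff ENNReal RealInnerProductSpace

namespace KP

variable {ι : Type*} [Fintype ι]

/-- `pd v Φ` is the derivative of `Φ` in the direction `v`. -/
noncomputable def pd (v : ι → ℝ) (Φ : (ι → ℝ) → ℝ) : (ι → ℝ) → ℝ := fun h => fderiv ℝ Φ h v

/-- Smooth functions vanishing where all coordinates are large. -/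
structure Good (Φ : (ι → ℝ) → ℝ) : Prop where
  smooth : ContDiff ℝ ∞ Φ
  vanish : ∃ C : ℝ, ∀ h : ι → ℝ, (∀ i, C ≤ h i) → Φ h = 0

lemma Good.continuous {Φ : (ι → ℝ) → ℝ} (hΦ : Good Φ) : Continuous Φ := hΦ.smooth.continuous

lemma Good.differentiable {Φ : (ι → ℝ) → ℝ} (hΦ : Good Φ) : Differentiable ℝ Φ :=
  hΦ.smooth.differentiable (by simp)

lemma contDiff_pd {Φ : (ι → ℝ) → ℝ} (hΦ : ContDiff ℝ ∞ Φ) (v : ι → ℝ) :
    ContDiff ℝ ∞ (pd v Φ) := by
  unfold pd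
  exact (hΦ.fderiv_right (m := ∞) (by simp)).clm_apply contDiff_const

lemma Good.fderiv_vanish {Φ : (ι → ℝ) → ℝ} (hΦ : Good Φ) :
    ∃ C : ℝ, ∀ h : ι → ℝ, (∀ i, C ≤ h i) → Φ h = 0 ∧ fderiv ℝ Φ h = 0 := by
  obtain ⟨C, hC⟩ := hΦ.vanish
  refine ⟨C + 1, fun h hh => ⟨hC h fun i => by linarith [hh i], ?_⟩⟩
  have : Φ =ᶠ[𝓝 h] fun _ => 0 := by
    have hopen : {g : ι → ℝ | ∀ i, C < g i} ∈ 𝓝 h := by
      have : {g : ι → ℝ | ∀ i, C < g i} = Set.pi Set.univ (fun _ => Set.Ioi C) := by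
        ext g; simp
      rw [this]
      refine (isOpen_set_pi Set.finite_univ (fun _ _ => isOpen_Ioi)).mem_nhds ?_
      intro i _
      have := hh i
      simp only [Set.mem_Ioi]
      linarith
    filter_upwards [hopen] with g hg
    exact hC g (fun i => (hg i).le)
  rw [this.fderiv_eq]
  simp

lemma Good.pd {Φ : (ι → ℝ) → ℝ} (hΦ : Good Φ) (v : ι → ℝ) : Good (pd v Φ) := by
  refine ⟨contDiff_pd hΦ.smooth v, ?_⟩
  obtain ⟨C, hC⟩ := hΦ.fderiv_vanish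
  refine ⟨C, fun h hh => ?_⟩
  show fderiv ℝ Φ h v = 0
  rw [(hC h hh).2]
  simp

lemma Good.zero : Good (fun _ : ι → ℝ => (0 : ℝ)) := ⟨contDiff_const, 0, by simp⟩

lemma Good.add {Φ Ψ : (ι → ℝ) → ℝ} (hΦ : Good Φ) (hΨ : Good Ψ) : Good (fun h => Φ h + Ψ h) := by
  refine ⟨hΦ.smooth.add hΨ.smooth, ?_⟩
  obtain ⟨C, hC⟩ := hΦ.vanish
  obtain ⟨C', hC'⟩ := hΨ.vanish
  refine ⟨max C C', fun h hh => ?_⟩
  rw [hC h (fun i => (le_max_left _ _).trans (hh i)), hC' h (fun i => (le_max_right _ _).trans (hh i))]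
  simp

lemma Good.const_mul {Φ : (ι → ℝ) → ℝ} (hΦ : Good Φ) (c : ℝ) : Good (fun h => c * Φ h) := by
  refine ⟨contDiff_const.mul hΦ.smooth, ?_⟩
  obtain ⟨C, hC⟩ := hΦ.vanish
  exact ⟨C, fun h hh => by rw [hC h hh, mul_zero]⟩

lemma Good.sum {κ : Type*} (s : Finset κ) {Φ : κ → (ι → ℝ) → ℝ} (hΦ : ∀ k ∈ s, Good (Φ k)) :
    Good (fun h => ∑ k ∈ s, Φ k h) := by
  classical
  induction s using Finset.induction_on with
  | empty => simpa using Good.zero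
  | insert a s ha ih =>
    simp only [Finset.sum_insert ha]
    exact (hΦ a (by simp)).add (ih (fun k hk => hΦ k (by simp [hk])))

lemma pd_sum {κ : Type*} (s : Finset κ) {Φ : κ → (ι → ℝ) → ℝ} (hΦ : ∀ k ∈ s, Good (Φ k))
    (c : κ → ℝ) (v : ι → ℝ) :
    pd v (fun h => ∑ k ∈ s, c k * Φ k h) = fun h => ∑ k ∈ s, c k * pd v (Φ k) h := by
  ext h
  unfold pd
  rw [fderiv_fun_sum (fun k hk => ((hΦ k hk).differentiable h).const_mul (c k))]
  simp only [FunLike.coe_sum, Finset.sum_apply]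
  refine Finset.sum_congr rfl fun k hk => ?_
  rw [fderiv_const_mul ((hΦ k hk).differentiable h)]
  simp

lemma pd_const_mul {Φ : (ι → ℝ) → ℝ} (hΦ : Good Φ) (c : ℝ) (v : ι → ℝ) :
    pd v (fun h => c * Φ h) = fun h => c * pd v Φ h := by
  ext h
  unfold pd
  rw [fderiv_const_mul (hΦ.differentiable h)]
  simp

lemma pd_comm {Φ : (ι → ℝ) → ℝ} (hΦ : ContDiff ℝ ∞ Φ) (v w : ι → ℝ) :
    pd v (pd w Φ) = pd w (pd v Φ) := by
  ext h
  have h1 : ∀ w : ι → ℝ, ∀ h : ι → ℝ, pd w Φ h = fderiv ℝ Φ h w := fun _ _ => rfl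
  have hd : DifferentiableAt ℝ (fderiv ℝ Φ) h :=
    (hΦ.fderiv_right (m := ∞) (by simp)).differentiable (by simp) h
  have key : ∀ v w : ι → ℝ, pd v (pd w Φ) h = fderiv ℝ (fderiv ℝ Φ) h v w := by
    intro v w
    show fderiv ℝ (fun h => fderiv ℝ Φ h w) h v = _
    rw [fderiv_clm_apply hd (by fun_prop)]
    simp
  rw [key, key]
  have hs : IsSymmSndFDerivAt ℝ Φ h := (hΦ.contDiffAt).isSymmSndFDerivAt (by
    simp only [minSmoothness_of_isRCLikeNormedField]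
    exact (WithTop.coe_le_coe.2 (le_top : (2 : ℕ∞) ≤ ⊤)))
  exact hs v w

lemma pd_eq_sum [DecidableEq ι] (Φ : (ι → ℝ) → ℝ) (v : ι → ℝ) :
    pd v Φ = fun h => ∑ i, v i * pd (Pi.single i 1) Φ h := by
  ext h
  unfold pd
  conv_lhs => rw [← Finset.univ_sum_single v]
  rw [map_sum]
  refine Finset.sum_congr rfl fun i _ => ?_
  have : (Pi.single i (v i) : ι → ℝ) = v i • Pi.single i (1 : ℝ) := by
    rw [← Pi.single_smul]; simp
  rw [this, map_smul, smul_eq_mul]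

/-- The derivative in the direction `(1,…,1)`. -/
noncomputable def DD (Φ : (ι → ℝ) → ℝ) : (ι → ℝ) → ℝ := pd 1 Φ

lemma Good.DD {Φ : (ι → ℝ) → ℝ} (hΦ : Good Φ) : Good (DD Φ) := hΦ.pd 1

lemma Good.iter {Φ : (ι → ℝ) → ℝ} (hΦ : Good Φ) (k : ℕ) : Good (KP.DD^[k] Φ) := by
  induction k with
  | zero => exact hΦ
  | succ k ih => rw [Function.iterate_succ_apply']; exact ih.DD

lemma DD_eq_sum [DecidableEq ι] (Φ : (ι → ℝ) → ℝ) :
    DD Φ = fun h => ∑ i, pd (Pi.single i 1) Φ h := by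
  unfold DD
  rw [pd_eq_sum]
  simp

lemma iter_pd {Φ : (ι → ℝ) → ℝ} (hΦ : Good Φ) (k : ℕ) (v : ι → ℝ) :
    DD^[k] (pd v Φ) = pd v (DD^[k] Φ) := by
  induction k with
  | zero => rfl
  | succ k ih =>
    rw [Function.iterate_succ_apply', Function.iterate_succ_apply', ih]
    exact pd_comm (hΦ.iter k).smooth 1 v

lemma iter_sum {κ : Type*} (s : Finset κ) {Φ : κ → (ι → ℝ) → ℝ} (hΦ : ∀ k ∈ s, Good (Φ k))
    (c : κ → ℝ) (n : ℕ) :
    DD^[n] (fun h => ∑ k ∈ s, c k * Φ k h) = fun h => ∑ k ∈ s, c k * (DD^[n] (Φ k)) h := by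
  induction n with
  | zero => rfl
  | succ n ih =>
    simp only [Function.iterate_succ_apply', ih]
    exact pd_sum s (fun k hk => (hΦ k hk).iter n) c 1

/-- One-dimensional restriction of a good function along `1`. -/
lemma hasDerivAt_shift {Φ : (ι → ℝ) → ℝ} (hΦ : Good Φ) (h : ι → ℝ) (s : ℝ) :
    HasDerivAt (fun s : ℝ => Φ (fun i => h i + s)) (DD Φ (fun i => h i + s)) s := by
  have h1 : HasDerivAt (fun s : ℝ => (fun i => h i + s : ι → ℝ)) (1 : ι → ℝ) s := by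
    rw [hasDerivAt_pi]
    intro i
    simpa using (hasDerivAt_id s).const_add (h i)
  exact ((hΦ.differentiable _).hasFDerivAt).comp_hasDerivAt s h1

end KP
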