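import Mathlib

/-!
Monotonicity in `T` of `∫ (T - q)₊^{-1/2}` over a ray, a cone, and for mixtures of orthants.
-/

open MeasureTheory Real Set Filter Topology
open scoped ENNReal NNReal RealInnerProductSpace

namespace KP

/-- The weight `x ↦ (1/2) x₊^{-1/2}`. -/
noncomputable def ww (x : ℝ) : ℝ≥0∞ := ENNReal.ofReal ((2 * √x)⁻¹)

lemma measurable_ww : Measurable ww := by
  unfold ww
  fun_prop

lemma ww_of_nonpos {x : ℝ} (hx : x ≤ 0) : ww x = 0 := by
  unfold ww
  rw [Real.sqrt_eq_zero_of_nonpos hx]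
  simp

lemma ww_sq {y : ℝ} (hy : 0 < y) : ww (y ^ 2) = ENNReal.ofReal ((2 * y)⁻¹) := by
  unfold ww
  rw [Real.sqrt_sq hy.le]

lemma ww_scale {R : ℝ} (hR : 0 < R) (x : ℝ) : ENNReal.ofReal R * ww (R ^ 2 * x) = ww x := by
  unfold ww
  rw [← ENNReal.ofReal_mul hR.le, Real.sqrt_mul (sq_nonneg R), Real.sqrt_sq hR.le]
  congr 1
  rw [mul_inv, mul_inv, mul_inv]
  field_simp

/-- Substitution `α = β + y²`. -/
lemma lintegral_sub_sq (β : ℝ) (G : ℝ → ℝ≥0∞) :
    ∫⁻ y in Ioi (0 : ℝ), G (β + y ^ 2) = ∫⁻ α, G α * ww (α - β) := by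
  have h1 : (fun y : ℝ => β + y ^ 2) '' Ioi 0 = Ioi β := by
    ext α
    simp only [mem_image, mem_Ioi]
    constructor
    · rintro ⟨y, hy, rfl⟩
      have : 0 < y ^ 2 := by positivity
      linarith
    · intro h
      refine ⟨√(α - β), Real.sqrt_pos.2 (by linarith), ?_⟩
      rw [Real.sq_sqrt (by linarith)]
      ring
  have h2 : InjOn (fun y : ℝ => β + y ^ 2) (Ioi 0) := by
    intro x hx y hy hxy
    simp only [add_right_inj] at hxy
    exact (pow_left_inj₀ (le_of_lt hx) (le_of_lt hy) two_ne_zero).1 hxy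
  have h3 : ∀ y ∈ Ioi (0 : ℝ), HasDerivWithinAt (fun y : ℝ => β + y ^ 2) (2 * y) (Ioi 0) y := by
    intro y _
    have : HasDerivAt (fun y : ℝ => β + y ^ 2) (2 * y) y := by
      simpa using (hasDerivAt_pow 2 y).const_add β
    exact this.hasDerivWithinAt
  have h4 := lintegral_image_eq_lintegral_abs_deriv_mul measurableSet_Ioi h3 h2
    (fun α => G α * ww (α - β))
  rw [h1] at h4
  have h5 : ∫⁻ α, G α * ww (α - β) = ∫⁻ α in Ioi β, G α * ww (α - β) := by
    rw [← lintegral_indicator measurableSet_Ioi]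
    refine lintegral_congr fun α => ?_
    by_cases h : α ∈ Ioi β
    · rw [indicator_of_mem h]
    · rw [indicator_of_notMem h, ww_of_nonpos (by simp only [mem_Ioi, not_lt] at h; linarith),
        mul_zero]
  rw [h5, h4]
  refine setLIntegral_congr_fun measurableSet_Ioi fun y hy => ?_
  have hy' : (0 : ℝ) < y := hy
  simp only [add_sub_cancel_left]
  rw [ww_sq hy', mul_left_comm, ← ENNReal.ofReal_mul (abs_nonneg _), abs_of_pos (by positivity),
    mul_inv_cancel₀ (by positivity)]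
  simp

lemma pair_mono {P : ℝ → ℝ} (hP : ConvexOn ℝ univ P) (L x₁ x₂ : ℝ) (h : |x₁| ≤ |x₂|) :
    P (L + x₁) + P (L - x₁) ≤ P (L + x₂) + P (L - x₂) := by
  -- wlog via absolute values
  have key : ∀ x y : ℝ, 0 ≤ x → x ≤ y → P (L + x) + P (L - x) ≤ P (L + y) + P (L - y) := by
    intro x y hx hxy
    rcases eq_or_lt_of_le (hx.trans hxy) with h0 | h0
    · have : x = 0 := by linarith
      rw [← h0, this]
    · set l : ℝ := (y + x) / (2 * y) with hl
      have hl0 : 0 ≤ l := by positivity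
      have hl1 : 0 ≤ 1 - l := by
        rw [hl, sub_nonneg, div_le_one (by positivity)]
        linarith
      have h1 := hP.2 (mem_univ (L + y)) (mem_univ (L - y)) hl0 hl1 (by ring)
      have h2 := hP.2 (mem_univ (L + y)) (mem_univ (L - y)) hl1 hl0 (by ring)
      simp only [smul_eq_mul] at h1 h2
      have e1 : l * (L + y) + (1 - l) * (L - y) = L + x := by
        rw [hl]; field_simp; ring
      have e2 : (1 - l) * (L + y) + l * (L - y) = L - x := by
        rw [hl]; field_simp; ring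
      rw [e1] at h1
      rw [e2] at h2
      linarith
  have habs : ∀ x : ℝ, P (L + x) + P (L - x) = P (L + |x|) + P (L - |x|) := by
    intro x
    rcases abs_cases x with ⟨h, _⟩ | ⟨h, _⟩
    · rw [h]
    · rw [h]
      simp only [sub_neg_eq_add]
      rw [← sub_eq_add_neg]
      ring
  rw [habs x₁, habs x₂]
  exact key _ _ (abs_nonneg _) h

lemma convexOn_pos_pow (n : ℕ) : ConvexOn ℝ univ (fun x : ℝ => (max x 0) ^ n) := by
  have h1 : ConvexOn ℝ univ (fun x : ℝ => max x 0) :=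
    (convexOn_id convex_univ).sup (convexOn_const 0 convex_univ)
  exact h1.pow (fun x _ => le_max_right _ _) n

/-- The one-dimensional monotonicity lemma, in normal form. -/
lemma ray_mono_aux (n : ℕ) (hn : 1 ≤ n) (a b : ℝ) (ha : 0 < a) :
    Monotone (fun T : ℝ => ∫⁻ ρ in Ioi (0 : ℝ), ENNReal.ofReal (ρ ^ n) *
      ww (T - (a * ρ + b) ^ 2)) := by
  set P : ℝ → ℝ := fun x => (max x 0) ^ n with hP
  have hPc : ConvexOn ℝ univ P := convexOn_pos_pow n
  have hPm : Measurable P := by rw [hP]; fun_prop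
  have hP0 : ∀ x, 0 ≤ P x := fun x => pow_nonneg (le_max_right _ _) _
  -- extend to the line
  have e1 : ∀ T : ℝ, ∫⁻ ρ in Ioi (0 : ℝ), ENNReal.ofReal (ρ ^ n) * ww (T - (a * ρ + b) ^ 2) =
      ∫⁻ ρ : ℝ, ENNReal.ofReal (P ρ) * ww (T - (a * ρ + b) ^ 2) := by
    intro T
    rw [← lintegral_indicator measurableSet_Ioi]
    refine lintegral_congr fun ρ => ?_
    by_cases h : ρ ∈ Ioi (0 : ℝ)
    · rw [indicator_of_mem h]
      have : P ρ = ρ ^ n := by
        simp only [hP]
        rw [max_eq_left (le_of_lt h)]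
      rw [this]
    · rw [indicator_of_notMem h]
      have : P ρ = 0 := by
        simp only [hP]
        rw [max_eq_right (by simpa using h), zero_pow (by omega)]
      rw [this]
      simp
  -- the value for `T = R²`
  set I : ℝ → ℝ≥0∞ := fun R => ∫⁻ s : ℝ, ENNReal.ofReal (P ((R * s - b) / a)) *
    (ENNReal.ofReal (1 / a) * ww (1 - s ^ 2)) with hI
  have e2 : ∀ R : ℝ, 0 < R →
      ∫⁻ ρ : ℝ, ENNReal.ofReal (P ρ) * ww (R ^ 2 - (a * ρ + b) ^ 2) = I R := by
    intro R hR
    have h1 : (fun s : ℝ => (R * s - b) / a) '' univ = univ := by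
      rw [image_univ, range_eq_univ]
      intro ρ
      refine ⟨(a * ρ + b) / R, ?_⟩
      field_simp
      ring
    have h2 : InjOn (fun s : ℝ => (R * s - b) / a) univ := by
      intro x _ y _ hxy
      simp only at hxy
      field_simp at hxy
      nlinarith
    have h3 : ∀ s ∈ (univ : Set ℝ),
        HasDerivWithinAt (fun s : ℝ => (R * s - b) / a) (R / a) univ s := by
      intro s _
      have : HasDerivAt (fun s : ℝ => (R * s - b) / a) (R / a) s := by
        simpa using (((hasDerivAt_id s).const_mul R).sub_const b).div_const a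
      exact this.hasDerivWithinAt
    have h4 := lintegral_image_eq_lintegral_abs_deriv_mul MeasurableSet.univ h3 h2
      (fun ρ => ENNReal.ofReal (P ρ) * ww (R ^ 2 - (a * ρ + b) ^ 2))
    rw [h1] at h4
    simp only [Measure.restrict_univ] at h4
    rw [h4, hI]
    refine lintegral_congr fun s => ?_
    have h5 : R ^ 2 - (a * ((R * s - b) / a) + b) ^ 2 = R ^ 2 * (1 - s ^ 2) := by
      field_simp
      ring
    have h6 : ENNReal.ofReal |R / a| = ENNReal.ofReal (1 / a) * ENNReal.ofReal R := by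
      rw [← ENNReal.ofReal_mul (by positivity), abs_of_pos (by positivity)]
      congr 1
      ring
    rw [h5, h6, ← ww_scale hR (1 - s ^ 2)]
    ring
  -- symmetrise
  have e3 : ∀ R : ℝ, 2 * I R = ∫⁻ s : ℝ, ENNReal.ofReal (P (-b / a + R * s / a) +
      P (-b / a - R * s / a)) * (ENNReal.ofReal (1 / a) * ww (1 - s ^ 2)) := by
    intro R
    have h1 : I R = ∫⁻ s : ℝ, ENNReal.ofReal (P ((R * (-s) - b) / a)) *
        (ENNReal.ofReal (1 / a) * ww (1 - s ^ 2)) := by
      rw [hI]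
      simp only
      rw [← lintegral_neg_eq_self]
      simp only [neg_sq]
    have hm : Measurable fun s : ℝ => ENNReal.ofReal (P ((R * s - b) / a)) *
        (ENNReal.ofReal (1 / a) * ww (1 - s ^ 2)) := by
      have := measurable_ww
      fun_prop
    rw [two_mul]
    nth_rewrite 2 [h1]
    rw [hI]
    simp only
    rw [← lintegral_add_left hm]
    refine lintegral_congr fun s => ?_
    rw [← add_mul, ← ENNReal.ofReal_add (hP0 _) (hP0 _)]
    congr 5 <;> ring
  have e4 : ∀ R₁ R₂ : ℝ, 0 ≤ R₁ → R₁ ≤ R₂ → I R₁ ≤ I R₂ := by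
    intro R₁ R₂ h0 h12
    have : 2 * I R₁ ≤ 2 * I R₂ := by
      rw [e3, e3]
      refine lintegral_mono fun s => ?_
      refine mul_le_mul' (ENNReal.ofReal_le_ofReal ?_) le_rfl
      refine pair_mono hPc _ _ _ ?_
      rw [abs_div, abs_div, abs_mul, abs_mul, abs_of_nonneg h0, abs_of_nonneg (h0.trans h12)]
      gcongr
    exact (ENNReal.mul_le_mul_iff_right (by norm_num) (by norm_num)).1 this
  intro T₁ T₂ h12
  simp only
  rw [e1, e1]
  rcases le_or_gt T₁ 0 with h | h
  · have : ∫⁻ ρ : ℝ, ENNReal.ofReal (P ρ) * ww (T₁ - (a * ρ + b) ^ 2) = 0 := by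
      rw [lintegral_eq_zero_iff' (by have := measurable_ww; fun_prop)]
      refine Eventually.of_forall fun ρ => ?_
      simp only
      rw [ww_of_nonpos (by nlinarith [sq_nonneg (a * ρ + b)]), mul_zero]
      rfl
    rw [this]
    exact bot_le
  · have h' : 0 < T₂ := lt_of_lt_of_le h h12
    have g1 := e2 (√T₁) (Real.sqrt_pos.2 h)
    have g2 := e2 (√T₂) (Real.sqrt_pos.2 h')
    rw [Real.sq_sqrt h.le] at g1
    rw [Real.sq_sqrt h'.le] at g2
    rw [g1, g2]
    exact e4 _ _ (Real.sqrt_nonneg _) (Real.sqrt_le_sqrt h12)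

section cone

variable {V : Type*} [NormedAddCommGroup V] [InnerProductSpace ℝ V]

lemma ray_mono (n : ℕ) (hn : 1 ≤ n) (e β : V) (hβ : β ≠ 0) :
    Monotone (fun T : ℝ => ∫⁻ ρ in Ioi (0 : ℝ), ENNReal.ofReal (ρ ^ n) *
      ww (T - ‖e + ρ • β‖ ^ 2)) := by
  have ha : 0 < ‖β‖ := norm_pos_iff.2 hβ
  have key : ∀ T ρ : ℝ, T - ‖e + ρ • β‖ ^ 2 =
      (T - (‖e‖ ^ 2 - (⟪e, β⟫ / ‖β‖) ^ 2)) - (‖β‖ * ρ + ⟪e, β⟫ / ‖β‖) ^ 2 := by
    intro T ρ
    rw [norm_add_sq_real, inner_smul_right, norm_smul, mul_pow, Real.norm_eq_abs, sq_abs]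
    field_simp
    ring
  simp_rw [key]
  intro T₁ T₂ h
  exact ray_mono_aux n hn ‖β‖ (⟪e, β⟫ / ‖β‖) ha (by linarith)

end cone

section polar

variable {W : Type*} [NormedAddCommGroup W] [NormedSpace ℝ W] [FiniteDimensional ℝ W]
  [MeasurableSpace W] [BorelSpace W] [Nontrivial W]

lemma lintegral_polar (μ : Measure W) [μ.IsAddHaarMeasure] (f : W → ℝ≥0∞) (hf : Measurable f) :
    ∫⁻ y, f y ∂μ = ∫⁻ ω : Metric.sphere (0 : W) 1, (∫⁻ ρ in Ioi (0 : ℝ),
      ENNReal.ofReal (ρ ^ (Module.finrank ℝ W - 1)) * f (ρ • (ω : W))) ∂(μ.toSphere) := by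
  have hmeas : Measurable fun p : Metric.sphere (0 : W) 1 × Ioi (0 : ℝ) =>
      f ((p.2 : ℝ) • (p.1 : W)) := by
    have : ProperSpace W := FiniteDimensional.proper_real W
    refine hf.comp ?_
    fun_prop
  calc
    ∫⁻ y, f y ∂μ = ∫⁻ x : ({(0 : W)}ᶜ : Set W), f x.1 ∂(μ.comap (↑)) := by
      rw [lintegral_subtype_comap (measurableSet_singleton _).compl f,
        restrict_compl_singleton]
    _ = ∫⁻ p : Metric.sphere (0 : W) 1 × Ioi (0 : ℝ), f ((p.2 : ℝ) • (p.1 : W))
          ∂μ.toSphere.prod (.volumeIoiPow (Module.finrank ℝ W - 1)) := by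
      rw [← μ.measurePreserving_homeomorphUnitSphereProd.lintegral_comp hmeas]
      refine lintegral_congr fun x => ?_
      have hx : ‖(x : W)‖ ≠ 0 := norm_ne_zero_iff.2 x.2
      simp [smul_smul, mul_inv_cancel₀ hx]
    _ = ∫⁻ ω : Metric.sphere (0 : W) 1, ∫⁻ ρ : Ioi (0 : ℝ), f ((ρ : ℝ) • (ω : W))
          ∂(.volumeIoiPow (Module.finrank ℝ W - 1)) ∂(μ.toSphere) := by
      rw [lintegral_prod _ hmeas.aemeasurable]
    _ = _ := by
      refine lintegral_congr fun ω => ?_
      have hm1 : Measurable fun ρ : Ioi (0 : ℝ) =>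
          ENNReal.ofReal ((ρ : ℝ) ^ (Module.finrank ℝ W - 1)) := by fun_prop
      have hm2 : Measurable fun ρ : Ioi (0 : ℝ) => f ((ρ : ℝ) • (ω : W)) :=
        hmeas.comp (measurable_const.prodMk measurable_id)
      rw [Measure.volumeIoiPow, lintegral_withDensity_eq_lintegral_mul _ hm1 hm2]
      have := lintegral_subtype_comap (μ := (volume : Measure ℝ)) measurableSet_Ioi
        (fun ρ : ℝ => ENNReal.ofReal (ρ ^ (Module.finrank ℝ W - 1)) * f (ρ • (ω : W)))
        (s := Ioi (0 : ℝ))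
      rw [← this]
      rfl

end polar

end KP
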