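import Pool.Agent.Helper738.KP.Main

/-!
Unions, intersections and multiplicity weights.
-/

open MeasureTheory Real Set Filter Topology
open scoped ENNReal NNReal

namespace KP

set_option maxHeartbeats 400000

variable {ι : Type*} [Fintype ι] [DecidableEq ι] {J : Type*} [Fintype J]

/-- The inequality for a given pair of configurations and all local submodular set functions. -/
def SetFnIneq (p q : ι → EuclideanSpace ℝ J) (ρ : ι → ℝ) : Prop :=
  ∀ φ : Finset ι → ℝ, φ ∅ = 0 → Submod φ →
    ∫ x : EuclideanSpace ℝ J, φ (Finset.univ.filter fun i => dist x (q i) ≤ ρ i) ≤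
      ∫ x : EuclideanSpace ℝ J, φ (Finset.univ.filter fun i => dist x (p i) ≤ ρ i)

lemma union_of_setFn {p q : ι → EuclideanSpace ℝ J} {ρ : ι → ℝ} (h : SetFnIneq p q ρ) :
    volume (⋃ i, Metric.closedBall (q i) (ρ i)) ≤ volume (⋃ i, Metric.closedBall (p i) (ρ i)) := by
  have hfin : ∀ r : ι → EuclideanSpace ℝ J, volume (⋃ i, Metric.closedBall (r i) (ρ i)) ≠ ⊤ := by
    intro r
    exact (isCompact_iUnion fun i => isCompact_closedBall _ _).measure_lt_top.ne
  set φ : Finset ι → ℝ := fun S => if S = ∅ then 0 else 1 with hφ
  have h1 := h φ (by simp [hφ]) (by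
    intro t a b hab hat hbt
    simp only [hφ, Finset.insert_ne_empty, if_false]
    split_ifs <;> norm_num)
  have h2 : ∀ r : ι → EuclideanSpace ℝ J,
      ∫ x : EuclideanSpace ℝ J, φ (Finset.univ.filter fun i => dist x (r i) ≤ ρ i) =
      (volume (⋃ i, Metric.closedBall (r i) (ρ i))).toReal := by
    intro r
    have hm : MeasurableSet (⋃ i, Metric.closedBall (r i) (ρ i)) :=
      MeasurableSet.iUnion fun i => Metric.isClosed_closedBall.measurableSet
    have h3 := integral_indicator_one (μ := (volume : Measure (EuclideanSpace ℝ J))) hm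
    rw [measureReal_def] at h3
    rw [← h3]
    refine integral_congr_ae (Eventually.of_forall fun x => ?_)
    simp only [hφ]
    by_cases hx : x ∈ ⋃ i, Metric.closedBall (r i) (ρ i)
    · rw [indicator_of_mem hx, if_neg]
      · rfl
      · obtain ⟨i, hi⟩ := mem_iUnion.1 hx
        exact Finset.nonempty_iff_ne_empty.1 ⟨i, by simpa using hi⟩
    · rw [indicator_of_notMem hx, if_pos]
      ext i
      simp only [Finset.mem_filter, Finset.mem_univ, true_and, Finset.notMem_empty, iff_false]
      intro hi
      exact hx (mem_iUnion.2 ⟨i, hi⟩)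
  rw [h2, h2] at h1
  exact (ENNReal.toReal_le_toReal (hfin q) (hfin p)).1 h1

lemma inter_of_setFn [Nonempty ι] {p q : ι → EuclideanSpace ℝ J} {ρ : ι → ℝ}
    (h : SetFnIneq p q ρ) :
    volume (⋂ i, Metric.closedBall (p i) (ρ i)) ≤ volume (⋂ i, Metric.closedBall (q i) (ρ i)) := by
  obtain ⟨i₀⟩ := ‹Nonempty ι›
  have hfin : ∀ r : ι → EuclideanSpace ℝ J, volume (⋂ i, Metric.closedBall (r i) (ρ i)) ≠ ⊤ := by
    intro r
    exact ((measure_mono (iInter_subset _ i₀)).trans_lt measure_closedBall_lt_top).ne
  set φ : Finset ι → ℝ := fun S => -(if S = Finset.univ then 1 else 0) with hφ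
  have h1 := h φ (by
      have : (∅ : Finset ι) ≠ Finset.univ := by
        intro h
        have := Finset.mem_univ i₀
        rw [← h] at this
        simp at this
      simp [hφ, this]) (by
    intro t a b hab hat hbt
    have e1 : insert a t ≠ Finset.univ := by
      intro h
      have := Finset.mem_univ b
      rw [← h, Finset.mem_insert] at this
      rcases this with h | h
      · exact hab h.symm
      · exact hbt h
    have e2 : insert b t ≠ Finset.univ := by
      intro h
      have := Finset.mem_univ a
      rw [← h, Finset.mem_insert] at this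
      rcases this with h | h
      · exact hab h
      · exact hat h
    simp only [hφ, e1, e2, if_false]
    split_ifs <;> norm_num)
  have h2 : ∀ r : ι → EuclideanSpace ℝ J,
      ∫ x : EuclideanSpace ℝ J, φ (Finset.univ.filter fun i => dist x (r i) ≤ ρ i) =
      -(volume (⋂ i, Metric.closedBall (r i) (ρ i))).toReal := by
    intro r
    have hm : MeasurableSet (⋂ i, Metric.closedBall (r i) (ρ i)) :=
      MeasurableSet.iInter fun i => Metric.isClosed_closedBall.measurableSet
    have h3 := integral_indicator_one (μ := (volume : Measure (EuclideanSpace ℝ J))) hm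
    rw [measureReal_def] at h3
    rw [← h3, ← integral_neg]
    refine integral_congr_ae (Eventually.of_forall fun x => ?_)
    simp only [hφ]
    by_cases hx : x ∈ ⋂ i, Metric.closedBall (r i) (ρ i)
    · rw [indicator_of_mem hx, if_pos]
      · rfl
      · ext i
        simp only [Finset.mem_filter, Finset.mem_univ, true_and, iff_true]
        exact mem_iInter.1 hx i
    · rw [indicator_of_notMem hx, if_neg]
      intro h4
      apply hx
      rw [mem_iInter]
      intro i
      have := Finset.mem_univ i
      rw [← h4] at this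
      simpa using this
  rw [h2, h2] at h1
  exact (ENNReal.toReal_le_toReal (hfin p) (hfin q)).1 (by linarith)

theorem setFnIneq_of_card (hcard : Fintype.card ι ≤ Fintype.card J + 4)
    (p q : ι → EuclideanSpace ℝ J) (hpq : ∀ i j, dist (q i) (q j) ≤ dist (p i) (p j))
    (ρ : ι → ℝ) (hρ : ∀ i, 0 < ρ i) : SetFnIneq p q ρ :=
  fun _ h0 hφ => setfn_ineq_closed hcard h0 hφ p q hpq ρ hρ

end KP
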