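import Pool.Agent.Helper738.KP.Basic

/-!
Differentiation under the integral sign and the basic derivative formula.
-/

open MeasureTheory Real Set Filter Topology
open scoped ContDiff ENNReal RealInnerProductSpace

namespace KP

variable {ι : Type*} [Fintype ι]
variable {V : Type*} [NormedAddCommGroup V] [InnerProductSpace ℝ V] [FiniteDimensional ℝ V]
  [MeasurableSpace V] [BorelSpace V]

/-- The vector of powers of the point `X`. -/
def hh (r : ι → V) (c : ι → ℝ) (X : V) : ι → ℝ := fun i => ‖X - r i‖ ^ 2 - c i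

omit [InnerProductSpace ℝ V] [FiniteDimensional ℝ V] [MeasurableSpace V] [BorelSpace V]
  [Fintype ι] in
lemma hh_large (C M : ℝ) (r : ι → V) (c : ι → ℝ) (X : V) (hr : ∀ i, ‖r i‖ ≤ M)
    (hc : ∀ i, c i ≤ M) (hX : 2 * |M| + |C| + 1 ≤ ‖X‖) (i : ι) : C ≤ hh r c X i := by
  unfold hh
  have h1 : ‖X‖ - ‖r i‖ ≤ ‖X - r i‖ := norm_sub_norm_le X (r i)
  have h2 : |M| + |C| + 1 ≤ ‖X - r i‖ := by
    have := hr i
    have := le_abs_self M
    linarith
  have h3 : |M| + |C| + 1 ≤ ‖X - r i‖ ^ 2 := by
    have h0 : (1 : ℝ) ≤ |M| + |C| + 1 := by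
      have := abs_nonneg M
      have := abs_nonneg C
      linarith
    nlinarith
  have := hc i
  have := le_abs_self M
  have := le_abs_self C
  linarith

/-- Differentiation under the integral sign for families with locally uniform compact support. -/
lemma hasDerivAt_integral_of_cpt (F F' : ℝ → V → ℝ)
    (hF : Continuous (Function.uncurry F)) (hF' : Continuous (Function.uncurry F'))
    (hd : ∀ t X, HasDerivAt (fun t => F t X) (F' t X) t)
    (hsupp : ∀ M : ℝ, ∃ R : ℝ, ∀ t X, |t| ≤ M → R ≤ ‖X‖ → F t X = 0 ∧ F' t X = 0) (t₀ : ℝ) :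
    HasDerivAt (fun t => ∫ X, F t X) (∫ X, F' t₀ X) t₀ := by
  obtain ⟨R, hR⟩ := hsupp (|t₀| + 1)
  have hcF : ∀ t, Continuous (F t) := fun t => hF.comp (Continuous.prodMk_right t)
  have hcF' : ∀ t, Continuous (F' t) := fun t => hF'.comp (Continuous.prodMk_right t)
  -- bound
  have hK : IsCompact (Metric.closedBall t₀ 1 ×ˢ Metric.closedBall (0 : V) R) :=
    (isCompact_closedBall _ _).prod (isCompact_closedBall _ _)
  obtain ⟨B, hB⟩ := hK.exists_bound_of_continuousOn (f := Function.uncurry F') hF'.continuousOn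
  have habs : ∀ t ∈ Metric.closedBall t₀ 1, |t| ≤ |t₀| + 1 := by
    intro t ht
    rw [Metric.mem_closedBall, Real.dist_eq] at ht
    have := abs_sub_abs_le_abs_sub t t₀
    linarith
  refine (hasDerivAt_integral_of_dominated_loc_of_deriv_le (F := F) (F' := F') (μ := volume)
    (x₀ := t₀) (s := Metric.closedBall t₀ 1)
    (bound := (Metric.closedBall (0 : V) R).indicator (fun _ => B))
    (Metric.closedBall_mem_nhds t₀ one_pos) (Eventually.of_forall fun t =>
      (hcF t).aestronglyMeasurable) ?_ (hcF' t₀).aestronglyMeasurable ?_ ?_ ?_).2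
  · refine (hcF t₀).integrable_of_hasCompactSupport ?_
    refine HasCompactSupport.of_support_subset_isCompact (isCompact_closedBall (0 : V) R) ?_
    intro X hX
    rw [Metric.mem_closedBall, dist_zero_right]
    by_contra hlt
    exact hX (hR t₀ X (by linarith) (not_le.1 hlt).le).1
  · refine Eventually.of_forall fun X t ht => ?_
    by_cases hX : X ∈ Metric.closedBall (0 : V) R
    · rw [indicator_of_mem hX]
      exact hB (t, X) ⟨ht, hX⟩
    · rw [indicator_of_notMem hX]
      rw [Metric.mem_closedBall, dist_zero_right, not_le] at hX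
      rw [(hR t X (habs t ht) hX.le).2]
      simp
  · rw [integrable_indicator_iff Metric.isClosed_closedBall.measurableSet]
    exact integrableOn_const (by
      exact (isCompact_closedBall (0 : V) R).measure_lt_top.ne)
  · exact Eventually.of_forall fun X t _ => hd t X

omit [Fintype ι] [InnerProductSpace ℝ V] [FiniteDimensional ℝ V] [MeasurableSpace V]
  [BorelSpace V] in
lemma continuous_hh {T : Type*} [TopologicalSpace T] {r : T → ι → V} {c : T → ι → ℝ}
    (hr : ∀ i, Continuous fun t => r t i) (hc : ∀ i, Continuous fun t => c t i)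
    {X : T → V} (hX : Continuous X) :
    Continuous fun t => hh (r t) (c t) (X t) := by
  unfold hh
  refine continuous_pi fun i => ?_
  have := hr i
  have := hc i
  fun_prop

omit [InnerProductSpace ℝ V] [FiniteDimensional ℝ V] [MeasurableSpace V] [BorelSpace V] in
lemma Good.continuous_comp {Ψ : (ι → ℝ) → ℝ} (hΨ : Good Ψ) (r : ι → V) (c : ι → ℝ) :
    Continuous (fun X : V => Ψ (hh r c X)) :=
  hΨ.continuous.comp
    (continuous_hh (T := V) (r := fun _ => r) (c := fun _ => c) (fun _ => continuous_const)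
      (fun _ => continuous_const) continuous_id)

omit [MeasurableSpace V] [BorelSpace V] in
lemma Good.hasCompactSupport {Ψ : (ι → ℝ) → ℝ} (hΨ : Good Ψ) (r : ι → V) (c : ι → ℝ) :
    HasCompactSupport (fun X : V => Ψ (hh r c X)) := by
  obtain ⟨C, hC⟩ := hΨ.vanish
  obtain ⟨M, hM⟩ : ∃ M, ∀ i, ‖r i‖ ≤ M ∧ c i ≤ M := by
    refine ⟨∑ i, (‖r i‖ + |c i|), fun i => ⟨?_, ?_⟩⟩
    · have := Finset.single_le_sum (f := fun i => ‖r i‖ + |c i|) (fun i _ => by positivity)
        (Finset.mem_univ i)
      have h2 := abs_nonneg (c i)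
      linarith
    · have := Finset.single_le_sum (f := fun i => ‖r i‖ + |c i|) (fun i _ => by positivity)
        (Finset.mem_univ i)
      have h2 := norm_nonneg (r i)
      have h3 := le_abs_self (c i)
      linarith
  refine HasCompactSupport.of_support_subset_isCompact
    (isCompact_closedBall (0 : V) (2 * |M| + |C| + 1)) ?_
  intro X hX
  rw [Metric.mem_closedBall, dist_zero_right]
  by_contra hlt
  exact hX (hC _ (hh_large C M r c X (fun i => (hM i).1) (fun i => (hM i).2) (not_le.1 hlt).le))

lemma Good.integrable {Ψ : (ι → ℝ) → ℝ} (hΨ : Good Ψ) (r : ι → V) (c : ι → ℝ) :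
    Integrable (fun X : V => Ψ (hh r c X)) :=
  (hΨ.continuous_comp r c).integrable_of_hasCompactSupport (hΨ.hasCompactSupport r c)

lemma Good.integrable_mul {Ψ : (ι → ℝ) → ℝ} (hΨ : Good Ψ) (r : ι → V) (c : ι → ℝ) (f : V → ℝ)
    (hf : Continuous f) : Integrable (fun X : V => f X * Ψ (hh r c X)) :=
  (hf.mul (hΨ.continuous_comp r c)).integrable_of_hasCompactSupport
    ((hΨ.hasCompactSupport r c).mul_left)

/-- General path derivative. -/
lemma hasDerivAt_path {Ψ : (ι → ℝ) → ℝ} (hΨ : Good Ψ) (r r' : ℝ → ι → V) (c c' : ℝ → ι → ℝ)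
    (hr : ∀ t i, HasDerivAt (fun t => r t i) (r' t i) t) (hr' : ∀ i, Continuous fun t => r' t i)
    (hc : ∀ t i, HasDerivAt (fun t => c t i) (c' t i) t) (hc' : ∀ i, Continuous fun t => c' t i)
    (t : ℝ) :
    HasDerivAt (fun t => ∫ X : V, Ψ (hh (r t) (c t) X))
      (∫ X : V, pd (fun i => -(2 * ⟪X - r t i, r' t i⟫) - c' t i) Ψ (hh (r t) (c t) X)) t := by
  have hrc : ∀ i, Continuous fun t => r t i := fun i =>
    continuous_iff_continuousAt.2 fun t => (hr t i).continuousAt
  have hcc : ∀ i, Continuous fun t => c t i := fun i =>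
    continuous_iff_continuousAt.2 fun t => (hc t i).continuousAt
  have hhc : Continuous fun p : ℝ × V => hh (r p.1) (c p.1) p.2 :=
    continuous_hh (fun i => (hrc i).comp continuous_fst) (fun i => (hcc i).comp continuous_fst)
      continuous_snd
  refine hasDerivAt_integral_of_cpt (fun t X => Ψ (hh (r t) (c t) X))
    (fun t X => pd (fun i => -(2 * ⟪X - r t i, r' t i⟫) - c' t i) Ψ (hh (r t) (c t) X))
    ?_ ?_ ?_ ?_ t
  · exact hΨ.continuous.comp hhc
  · unfold pd Function.uncurry
    refine Continuous.clm_apply ?_ ?_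
    · exact (hΨ.smooth.continuous_fderiv (by simp)).comp hhc
    · refine continuous_pi fun i => ?_
      have h1 := (hrc i).comp (continuous_fst : Continuous (Prod.fst : ℝ × V → ℝ))
      have h2 := (hr' i).comp (continuous_fst : Continuous (Prod.fst : ℝ × V → ℝ))
      have h3 := (hc' i).comp (continuous_fst : Continuous (Prod.fst : ℝ × V → ℝ))
      simp only [Function.comp_def] at h1 h2 h3
      fun_prop
  · intro t X
    have h1 : HasDerivAt (fun t => hh (r t) (c t) X)
        (fun i => -(2 * ⟪X - r t i, r' t i⟫) - c' t i) t := by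
      rw [hasDerivAt_pi]
      intro i
      unfold hh
      refine HasDerivAt.sub ?_ (hc t i)
      have h2 := ((hr t i).const_sub X).norm_sq
      have h3 : 2 * ⟪X - r t i, -r' t i⟫ = -(2 * ⟪X - r t i, r' t i⟫) := by
        rw [inner_neg_right]; ring
      rw [h3] at h2
      exact h2
    exact ((hΨ.differentiable _).hasFDerivAt).comp_hasDerivAt t h1
  · intro M
    obtain ⟨C, hC⟩ := hΨ.fderiv_vanish
    have hK : IsCompact (Metric.closedBall (0 : ℝ) M) := isCompact_closedBall _ _
    choose B hB using fun i => hK.exists_bound_of_continuousOn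
      (f := fun t => r t i) (hrc i).continuousOn
    choose B' hB' using fun i => hK.exists_bound_of_continuousOn
      (f := fun t => c t i) (hcc i).continuousOn
    set M' : ℝ := ∑ i, (|B i| + |B' i|) with hM'
    have hle : ∀ i, B i ≤ M' ∧ B' i ≤ M' := by
      intro i
      have := Finset.single_le_sum (f := fun i => |B i| + |B' i|) (fun i _ => by positivity)
        (Finset.mem_univ i)
      have h1 := le_abs_self (B i)
      have h2 := le_abs_self (B' i)
      have h3 := abs_nonneg (B i)
      have h4 := abs_nonneg (B' i)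
      constructor <;> linarith
    refine ⟨2 * |M'| + |C| + 1, fun t X ht hX => ?_⟩
    have htm : t ∈ Metric.closedBall (0 : ℝ) M := by
      rw [Metric.mem_closedBall, dist_zero_right]; exact ht
    have := hC (hh (r t) (c t) X) (hh_large C M' _ _ X
      (fun i => (hB i t htm).trans (hle i).1)
      (fun i => ((le_abs_self _).trans (hB' i t htm)).trans (hle i).2) hX)
    refine ⟨this.1, ?_⟩
    unfold pd
    rw [this.2]
    simp

/-- Vanishing of the integral of a total derivative. -/
lemma integral_div_zero {Ψ : (ι → ℝ) → ℝ} (hΨ : Good Ψ) (r : ι → V) (c : ι → ℝ) (v : V) :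
    ∫ X : V, pd (fun j => 2 * ⟪X - r j, v⟫) Ψ (hh r c X) = 0 := by
  have h1 := hasDerivAt_path hΨ (fun t i => r i - t • v) (fun _ _ => -v) (fun _ => c)
    (fun _ _ => 0) (fun t i => by
      have := ((hasDerivAt_id t).smul_const v).const_sub (r i)
      simpa using this) (fun i => continuous_const) (fun t i => hasDerivAt_const t (c i))
    (fun i => continuous_const) 0
  have h2 : (fun t : ℝ => ∫ X : V, Ψ (hh (fun i => r i - t • v) c X)) =
      fun _ => ∫ X : V, Ψ (hh r c X) := by
    ext t
    rw [← integral_add_right_eq_self (fun X => Ψ (hh r c X)) (t • v)]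
    refine integral_congr_ae (Eventually.of_forall fun X => ?_)
    simp only
    congr 1
    unfold hh
    ext i
    have : X - (r i - t • v) = X + t • v - r i := by module
    rw [this]
  rw [h2] at h1
  have h3 := h1.unique (hasDerivAt_const (0 : ℝ) (∫ X : V, Ψ (hh r c X)))
  rw [← h3]
  refine integral_congr_ae (Eventually.of_forall fun X => ?_)
  simp

/-- The basic derivative formula. -/
lemma hasDerivAt_main [DecidableEq ι] {Υ : (ι → ℝ) → ℝ} (hΥ : Good Υ) (r r' : ℝ → ι → V)
    (c : ι → ℝ)
    (hr : ∀ t i, HasDerivAt (fun t => r t i) (r' t i) t) (hr' : ∀ i, Continuous fun t => r' t i)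
    (t : ℝ) :
    HasDerivAt (fun t => ∫ X : V, DD Υ (hh (r t) c X))
      (∑ i, ∑ j, (∫ X : V, pd (Pi.single j 1) (pd (Pi.single i 1) Υ) (hh (r t) c X)) *
        ⟪r t i - r t j, r' t i - r' t j⟫) t := by
  have h1 := hasDerivAt_path hΥ.DD r r' (fun _ => c) (fun _ _ => 0) hr hr'
    (fun t i => hasDerivAt_const t (c i)) (fun i => continuous_const) t
  convert h1 using 1
  clear h1
  set A : ι → ι → V → ℝ := fun i j X =>
    pd (Pi.single j 1) (pd (Pi.single i 1) Υ) (hh (r t) c X) with hA
  have hAsymm : ∀ i j, A i j = A j i := by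
    intro i j
    simp only [hA]
    rw [pd_comm hΥ.smooth]
  have hAint : ∀ i j, Integrable (A i j) := fun i j => ((hΥ.pd _).pd _).integrable (r t) c
  have hAint' : ∀ i j (f : V → ℝ), Continuous f → Integrable (fun X => f X * A i j X) :=
    fun i j f hf => ((hΥ.pd _).pd _).integrable_mul (r t) c f hf
  -- expand the right-hand side
  have hR : ∀ X, pd (fun i => -(2 * ⟪X - r t i, r' t i⟫) - 0) (DD Υ) (hh (r t) c X) =
      ∑ i, ∑ j, (-(2 * ⟪X - r t i, r' t i⟫)) * A i j X := by
    intro X
    rw [pd_eq_sum]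
    refine Finset.sum_congr rfl fun i _ => ?_
    have : pd (Pi.single i 1) (DD Υ) = DD (pd (Pi.single i 1) Υ) := by
      unfold DD
      rw [pd_comm hΥ.smooth]
    rw [this, DD_eq_sum, Finset.mul_sum]
    simp [hA]
  have hZ : ∀ i, ∫ X : V, ∑ j, (2 * ⟪X - r t j, r' t i⟫) * A i j X = 0 := by
    intro i
    have := integral_div_zero (hΥ.pd (Pi.single i 1)) (r t) c (r' t i)
    rw [← this]
    refine integral_congr_ae (Eventually.of_forall fun X => ?_)
    simp only
    rw [pd_eq_sum]
  have hcont : ∀ i k, Continuous fun X : V => ⟪X - r t i, r' t k⟫ := by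
    intro i k; fun_prop
  have e1 : ∫ X : V, pd (fun i => -(2 * ⟪X - r t i, r' t i⟫) - 0) (DD Υ) (hh (r t) c X) =
      ∑ i, ∑ j, (∫ X, A i j X) * (2 * ⟪r t i - r t j, r' t i⟫) := by
    have e2 : ∫ X : V, pd (fun i => -(2 * ⟪X - r t i, r' t i⟫) - 0) (DD Υ) (hh (r t) c X) =
        ∫ X : V, ((∑ i, ∑ j, (-(2 * ⟪X - r t i, r' t i⟫)) * A i j X) +
          ∑ i, ∑ j, (2 * ⟪X - r t j, r' t i⟫) * A i j X) := by
      rw [integral_add, integral_finsetSum (s := Finset.univ)
        (f := fun i X => ∑ j, (2 * ⟪X - r t j, r' t i⟫) * A i j X)]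
      · simp only [hZ, Finset.sum_const_zero, add_zero]
        exact integral_congr_ae (Eventually.of_forall fun X => hR X)
      · intro i _
        exact integrable_finsetSum _ fun j _ => hAint' i j _ (by fun_prop)
      · exact integrable_finsetSum _ fun i _ => integrable_finsetSum _ fun j _ =>
          hAint' i j _ (by fun_prop)
      · exact integrable_finsetSum _ fun i _ => integrable_finsetSum _ fun j _ =>
          hAint' i j _ (by fun_prop)
    rw [e2]
    have e3 : ∀ X : V, ((∑ i, ∑ j, (-(2 * ⟪X - r t i, r' t i⟫)) * A i j X) +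
          ∑ i, ∑ j, (2 * ⟪X - r t j, r' t i⟫) * A i j X) =
        ∑ i, ∑ j, A i j X * (2 * ⟪r t i - r t j, r' t i⟫) := by
      intro X
      rw [← Finset.sum_add_distrib]
      refine Finset.sum_congr rfl fun i _ => ?_
      rw [← Finset.sum_add_distrib]
      refine Finset.sum_congr rfl fun j _ => ?_
      have : ⟪r t i - r t j, r' t i⟫ = ⟪X - r t j, r' t i⟫ - ⟪X - r t i, r' t i⟫ := by
        rw [← inner_sub_left]
        congr 1
        module
      rw [this]
      ring
    simp_rw [e3]
    rw [integral_finsetSum]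
    · refine Finset.sum_congr rfl fun i _ => ?_
      rw [integral_finsetSum]
      · refine Finset.sum_congr rfl fun j _ => ?_
        rw [integral_mul_const]
      · exact fun j _ => (hAint i j).mul_const _
    · exact fun i _ => integrable_finsetSum _ fun j _ => (hAint i j).mul_const _
  rw [e1]
  -- symmetrise
  have e4 : ∑ i, ∑ j, (∫ X, A i j X) * (2 * ⟪r t i - r t j, r' t i⟫) =
      ∑ i, ∑ j, (∫ X, A i j X) * ⟪r t i - r t j, r' t i⟫ +
      ∑ i, ∑ j, (∫ X, A i j X) * ⟪r t j - r t i, r' t j⟫ := by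
    conv_rhs => rw [add_comm, Finset.sum_comm, ← Finset.sum_add_distrib]
    refine Finset.sum_congr rfl fun i _ => ?_
    rw [← Finset.sum_add_distrib]
    refine Finset.sum_congr rfl fun j _ => ?_
    rw [hAsymm j i]
    ring
  rw [e4, ← Finset.sum_add_distrib]
  refine Finset.sum_congr rfl fun i _ => ?_
  rw [← Finset.sum_add_distrib]
  refine Finset.sum_congr rfl fun j _ => ?_
  have : ⟪r t j - r t i, r' t j⟫ = - ⟪r t i - r t j, r' t j⟫ := by
    rw [← inner_neg_left]; simp
  rw [inner_sub_right, this]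
  ring

end KP
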