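import Pool.Agent.Helper738.KP.Cor

/-!
Kneser's multiplicity weights.
-/

open MeasureTheory Real Set Filter Topology
open scoped ENNReal NNReal

namespace KP

set_option maxHeartbeats 400000

variable {J : Type*} [Fintype J]

/-- The partial sums of the weights. -/
noncomputable def wsum {n : ℕ} (τ : Fin n → ℝ) (m : ℕ) : ℝ :=
  ∑ k : Fin n, τ k * (if k.val + 1 ≤ m then 1 else 0)

lemma wsum_zero {n : ℕ} (τ : Fin n → ℝ) : wsum τ 0 = 0 := by
  unfold wsum
  refine Finset.sum_eq_zero fun k _ => ?_
  rw [if_neg (by omega), mul_zero]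

lemma wsum_succ {n : ℕ} (τ : Fin n → ℝ) (m : ℕ) (hm : m < n) :
    wsum τ (m + 1) = wsum τ m + τ ⟨m, hm⟩ := by
  unfold wsum
  have h1 : τ ⟨m, hm⟩ = ∑ k : Fin n, τ k * (if k = ⟨m, hm⟩ then 1 else 0) := by
    simp
  rw [h1, ← Finset.sum_add_distrib]
  refine Finset.sum_congr rfl fun k _ => ?_
  rw [← mul_add]
  congr 1
  have h2 : (k = ⟨m, hm⟩) ↔ k.val = m := by
    constructor
    · intro h; rw [h]
    · intro h; exact Fin.ext h
  simp only [h2]
  split_ifs <;> first | omega | norm_num

lemma submod_wsum {n : ℕ} (τ : Fin n → ℝ) (hτ : Antitone τ) :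
    Submod (fun S : Finset (Fin n) => wsum τ S.card) := by
  intro t a b hab hat hbt
  have h1 : (insert a t).card = t.card + 1 := Finset.card_insert_of_notMem hat
  have h2 : (insert b t).card = t.card + 1 := Finset.card_insert_of_notMem hbt
  have h3 : (insert a (insert b t)).card = t.card + 1 + 1 := by
    rw [Finset.card_insert_of_notMem, h2]
    simp [hab, hat]
  have h4 : t.card + 1 + 1 ≤ n := by
    rw [← h3]
    simpa using Finset.card_le_univ (insert a (insert b t))
  simp only
  rw [h1, h2, h3, wsum_succ τ (t.card + 1) (by omega), wsum_succ τ t.card (by omega)]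
  have h5 : τ ⟨t.card + 1, by omega⟩ ≤ τ ⟨t.card, by omega⟩ := hτ (by
    rw [Fin.le_def]
    simp)
  linarith

lemma measurableSet_cover {ι : Type*} [Fintype ι] (r : ι → EuclideanSpace ℝ J) (ρ : ι → ℝ)
    (m : ℕ) :
    MeasurableSet {x : EuclideanSpace ℝ J |
      m ≤ (Finset.univ.filter (fun i => dist x (r i) ≤ ρ i)).card} := by
  have h1 : Measurable fun x : EuclideanSpace ℝ J =>
      (Finset.univ.filter (fun i => dist x (r i) ≤ ρ i)).card := by
    simp only [Finset.card_filter]
    refine Finset.measurable_sum _ fun i _ => ?_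
    refine Measurable.ite ?_ measurable_const measurable_const
    exact measurableSet_le (by fun_prop) measurable_const
  exact h1 (measurableSet_Ici (a := m))

lemma kneser_of_setFn {n : ℕ} {p q : Fin n → EuclideanSpace ℝ J} {ρ : Fin n → ℝ}
    (h : SetFnIneq p q ρ) (τ : Fin n → ℝ) (hτ : Antitone τ) :
    ∑ k : Fin n, τ k *
        (volume {x : EuclideanSpace ℝ J |
          k.val + 1 ≤ (Finset.univ.filter (fun i => dist x (q i) ≤ ρ i)).card}).toReal ≤
      ∑ k : Fin n, τ k *
        (volume {x : EuclideanSpace ℝ J |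
          k.val + 1 ≤ (Finset.univ.filter (fun i => dist x (p i) ≤ ρ i)).card}).toReal := by
  have h1 := h (fun S => wsum τ S.card) (by simp [wsum_zero]) (submod_wsum τ hτ)
  have h2 : ∀ r : Fin n → EuclideanSpace ℝ J,
      ∫ x : EuclideanSpace ℝ J, wsum τ (Finset.univ.filter fun i => dist x (r i) ≤ ρ i).card =
      ∑ k : Fin n, τ k * (volume {x : EuclideanSpace ℝ J |
          k.val + 1 ≤ (Finset.univ.filter (fun i => dist x (r i) ≤ ρ i)).card}).toReal := by
    intro r
    have hm := fun k : Fin n => measurableSet_cover r ρ (k.val + 1)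
    have hfin : ∀ k : Fin n, volume {x : EuclideanSpace ℝ J |
          k.val + 1 ≤ (Finset.univ.filter (fun i => dist x (r i) ≤ ρ i)).card} ≠ ⊤ := by
      intro k
      refine ne_top_of_le_ne_top
        ((isCompact_iUnion fun i => isCompact_closedBall (r i) (ρ i)).measure_lt_top
          (μ := volume)).ne (measure_mono ?_)
      intro x hx
      have hx' : k.val + 1 ≤ (Finset.univ.filter (fun i => dist x (r i) ≤ ρ i)).card := hx
      obtain ⟨i, hi⟩ := Finset.card_pos.1 (lt_of_lt_of_le (Nat.succ_pos _) hx')
      exact mem_iUnion.2 ⟨i, by simpa using hi⟩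
    have h3 : ∀ k : Fin n, (volume {x : EuclideanSpace ℝ J |
          k.val + 1 ≤ (Finset.univ.filter (fun i => dist x (r i) ≤ ρ i)).card}).toReal =
        ∫ x : EuclideanSpace ℝ J, (if k.val + 1 ≤
          (Finset.univ.filter (fun i => dist x (r i) ≤ ρ i)).card then (1 : ℝ) else 0) := by
      intro k
      have h4 := integral_indicator_one (μ := (volume : Measure (EuclideanSpace ℝ J))) (hm k)
      rw [measureReal_def] at h4
      rw [← h4]
      refine integral_congr_ae (Eventually.of_forall fun x => ?_)
      simp only [indicator, mem_ofPred_eq, Pi.one_apply]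
    simp_rw [h3, ← integral_const_mul]
    rw [← integral_finsetSum]
    · rfl
    · intro k _
      refine Integrable.const_mul ?_ _
      have h5 : (fun x : EuclideanSpace ℝ J => (if k.val + 1 ≤
          (Finset.univ.filter (fun i => dist x (r i) ≤ ρ i)).card then (1 : ℝ) else 0)) =
          {x : EuclideanSpace ℝ J | k.val + 1 ≤
          (Finset.univ.filter (fun i => dist x (r i) ≤ ρ i)).card}.indicator (fun _ => 1) := by
        ext x
        simp only [indicator, mem_ofPred_eq]
      rw [h5, integrable_indicator_iff (hm k)]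
      exact integrableOn_const (hfin k)
  rw [h2, h2] at h1
  exact h1

end KP
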