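import Pool.Agent.Helper738.KP.Path

/-!
Passing to the limit of sharp cutoffs.
-/

open MeasureTheory Real Set Filter Topology
open scoped ContDiff ENNReal NNReal RealInnerProductSpace

namespace KP

set_option maxHeartbeats 400000

variable {ι : Type*} [Fintype ι] [DecidableEq ι]

lemma Phi_tendsto (φ : Finset ι → ℝ) (h0 : φ ∅ = 0) (h : ι → ℝ) :
    Tendsto (fun n => Phi (chi n) φ h) atTop (𝓝 (φ (Finset.univ.filter fun i => h i < 0))) := by
  classical
  set T : Finset ι := Finset.univ.filter fun i => h i < 0 with hT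
  have h1 : ∀ S : Finset ι, Tendsto (fun n => ∏ i, eta (chi n) S i (h i)) atTop
      (𝓝 (if S = T then 1 else 0)) := by
    intro S
    have h2 : ∀ i, Tendsto (fun n => eta (chi n) S i (h i)) atTop
        (𝓝 (if (i ∈ S ↔ i ∈ T) then 1 else 0)) := by
      intro i
      have h3 := chi_tendsto (h i)
      unfold eta
      by_cases hi : i ∈ S
      · simp only [hi, if_true, true_iff]
        have h4 : (i ∈ T) = (h i < 0) := by simp [hT]
        simp only [h4]
        exact h3
      · simp only [hi, if_false, false_iff]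
        have h4 : (i ∈ T) = (h i < 0) := by simp [hT]
        simp only [h4]
        have h5 := h3.const_sub 1
        by_cases hh : h i < 0
        · simpa [hh] using h5
        · simpa [hh] using h5
    have h6 := tendsto_finsetProd (Finset.univ : Finset ι) (fun i _ => h2 i)
    have h7 : (∏ i : ι, (if (i ∈ S ↔ i ∈ T) then (1 : ℝ) else 0)) = if S = T then 1 else 0 := by
      split_ifs with hS
      · refine Finset.prod_eq_one fun i _ => ?_
        rw [if_pos (by rw [hS])]
      · have : ∃ i, ¬ (i ∈ S ↔ i ∈ T) := by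
          by_contra hcon
          push Not at hcon
          exact hS (Finset.ext hcon)
        obtain ⟨i, hi⟩ := this
        exact Finset.prod_eq_zero (Finset.mem_univ i) (by rw [if_neg hi])
    rw [h7] at h6
    exact h6
  have h8 : Tendsto (fun n => ∑ S ∈ (Finset.univ : Finset (Finset ι)).erase ∅,
      φ S * ∏ i, eta (chi n) S i (h i)) atTop
      (𝓝 (∑ S ∈ (Finset.univ : Finset (Finset ι)).erase ∅, φ S * (if S = T then 1 else 0))) :=
    tendsto_finsetSum _ fun S _ => (h1 S).const_mul _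
  have h9 : (∑ S ∈ (Finset.univ : Finset (Finset ι)).erase ∅, φ S * (if S = T then 1 else 0)) =
      φ T := by
    rw [Finset.sum_erase _ (by rw [h0, zero_mul])]
    simp
  rw [h9] at h8
  exact h8

lemma Phi_bound {χ : ℝ → ℝ} (hχ : IsChi χ) (φ : Finset ι → ℝ) (h : ι → ℝ) :
    |Phi χ φ h| ≤ ∑ S : Finset ι, |φ S| := by
  unfold Phi
  refine (Finset.abs_sum_le_sum_abs _ _).trans ?_
  refine (Finset.sum_le_sum fun S _ => ?_ : _ ≤ ∑ S ∈ (Finset.univ : Finset (Finset ι)).erase ∅,
    |φ S|).trans (Finset.sum_le_sum_of_subset_of_nonneg (Finset.erase_subset _ _)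
      fun S _ _ => abs_nonneg _)
  rw [abs_mul]
  refine mul_le_of_le_one_right (abs_nonneg _) ?_
  rw [abs_of_nonneg (Finset.prod_nonneg fun i _ => eta_nonneg hχ S i _)]
  exact Finset.prod_le_one (fun i _ => eta_nonneg hχ S i _) (fun i _ => eta_le_one hχ S i _)

lemma Phi_vanish {χ : ℝ → ℝ} (hχ : IsChi χ) (φ : Finset ι → ℝ) (h : ι → ℝ) (hh : ∀ i, 0 ≤ h i) :
    Phi χ φ h = 0 := by
  unfold Phi
  refine Finset.sum_eq_zero fun S hS => ?_
  obtain ⟨i, hi⟩ := Finset.nonempty_iff_ne_empty.2 (Finset.mem_erase.1 hS).1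
  rw [Finset.prod_eq_zero (Finset.mem_univ i), mul_zero]
  unfold eta
  rw [if_pos hi]
  exact hχ.zero _ (hh i)

section

variable {E : Type*} [NormedAddCommGroup E] [InnerProductSpace ℝ E] [FiniteDimensional ℝ E]
  [MeasurableSpace E] [BorelSpace E]

lemma integral_Phi_tendsto (φ : Finset ι → ℝ) (h0 : φ ∅ = 0) (p : ι → E) (c : ι → ℝ) :
    Tendsto (fun n => ∫ x : E, Phi (chi n) φ (hh p c x)) atTop
      (𝓝 (∫ x : E, φ (Finset.univ.filter fun i => hh p c x i < 0))) := by
  obtain ⟨M, hM⟩ : ∃ M, ∀ i, ‖p i‖ ≤ M ∧ c i ≤ M := by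
    refine ⟨∑ i, (‖p i‖ + |c i|), fun i => ⟨?_, ?_⟩⟩
    · have := Finset.single_le_sum (f := fun i => ‖p i‖ + |c i|) (fun i _ => by positivity)
        (Finset.mem_univ i)
      have h2 := abs_nonneg (c i)
      linarith
    · have := Finset.single_le_sum (f := fun i => ‖p i‖ + |c i|) (fun i _ => by positivity)
        (Finset.mem_univ i)
      have h2 := norm_nonneg (p i)
      have h3 := le_abs_self (c i)
      linarith
  set R : ℝ := 2 * |M| + |(0 : ℝ)| + 1 with hR
  set B : ℝ := ∑ S : Finset ι, |φ S| with hB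
  refine tendsto_integral_of_dominated_convergence
    ((Metric.closedBall (0 : E) R).indicator (fun _ => B)) ?_ ?_ ?_ ?_
  · intro n
    exact ((good_Phi (isChi_chi n) φ).continuous_comp p c).aestronglyMeasurable
  · rw [integrable_indicator_iff Metric.isClosed_closedBall.measurableSet]
    exact integrableOn_const (by exact (isCompact_closedBall (0 : E) R).measure_lt_top.ne)
  · intro n
    refine Eventually.of_forall fun x => ?_
    by_cases hx : x ∈ Metric.closedBall (0 : E) R
    · rw [indicator_of_mem hx, Real.norm_eq_abs]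
      exact Phi_bound (isChi_chi n) φ _
    · rw [indicator_of_notMem hx]
      rw [Metric.mem_closedBall, dist_zero_right, not_le] at hx
      rw [Phi_vanish (isChi_chi n) φ _ fun i =>
        hh_large 0 M p c x (fun i => (hM i).1) (fun i => (hM i).2) hx.le i]
      simp
  · exact Eventually.of_forall fun x => Phi_tendsto φ h0 _

end

/-! ### The concrete frame -/

section frame

variable {J : Type*} [Fintype J]

/-- First embedding. -/
noncomputable def emb1 (J ι : Type*) [Fintype J] [Fintype ι] :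
    EuclideanSpace ℝ J →ₗᵢ[ℝ] EuclideanSpace ℝ (J ⊕ (J ⊕ ι)) where
  toFun x := WithLp.toLp 2 (Sum.elim (fun j => x j) (fun _ => 0))
  map_add' x y := by
    ext i
    rcases i with i | i <;> simp
  map_smul' t x := by
    ext i
    rcases i with i | i <;> simp
  norm_map' x := by
    simp [EuclideanSpace.norm_eq, Fintype.sum_sum_type]

/-- Second embedding. -/
noncomputable def emb2 (J ι : Type*) [Fintype J] [Fintype ι] :
    EuclideanSpace ℝ J →ₗᵢ[ℝ] EuclideanSpace ℝ (J ⊕ (J ⊕ ι)) where
  toFun x := WithLp.toLp 2 (Sum.elim (fun _ => 0) (Sum.elim (fun j => x j) (fun _ => 0)))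
  map_add' x y := by
    ext i
    rcases i with i | i | i <;> simp
  map_smul' t x := by
    ext i
    rcases i with i | i | i <;> simp
  norm_map' x := by
    simp [EuclideanSpace.norm_eq, Fintype.sum_sum_type]

/-- The swap of the first two blocks. -/
def swp (J ι : Type*) : J ⊕ (J ⊕ ι) ≃ J ⊕ (J ⊕ ι) :=
  (Equiv.sumAssoc J J ι).symm.trans
    ((Equiv.sumCongr (Equiv.sumComm J J) (Equiv.refl ι)).trans (Equiv.sumAssoc J J ι))

theorem smooth_ineq (hcard : Fintype.card ι = Fintype.card J + 4)
    {χ : ℝ → ℝ} (hχ : IsChi χ) {φ : Finset ι → ℝ} (h0 : φ ∅ = 0) (hφ : Submod φ)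
    (p q : ι → EuclideanSpace ℝ J) (hpq : ∀ i j, ‖q i - q j‖ ≤ ‖p i - p j‖) (c : ι → ℝ) :
    ∫ x : EuclideanSpace ℝ J, Phi χ φ (hh q c x) ≤
      ∫ x : EuclideanSpace ℝ J, Phi χ φ (hh p c x) := by
  classical
  refine path_ineq (V := EuclideanSpace ℝ (J ⊕ (J ⊕ ι))) (Fintype.card J) ?_ ?_
    (emb1 J ι) (emb2 J ι) (fun i => EuclideanSpace.single (Sum.inr (Sum.inr i)) 1) ?_ ?_ ?_ ?_
    (LinearIsometryEquiv.piLpCongrLeft 2 ℝ ℝ (swp J ι)) ?_ hχ h0 hφ p q hpq c
  · simp only [finrank_euclideanSpace, Fintype.card_sum]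
    omega
  · simp only [finrank_euclideanSpace]
    omega
  · exact (EuclideanSpace.orthonormal_single (𝕜 := ℝ) (ι := J ⊕ (J ⊕ ι))).comp
      (fun i => Sum.inr (Sum.inr i)) (Sum.inr_injective.comp Sum.inr_injective)
  · intro x y
    simp [PiLp.inner_apply, Fintype.sum_sum_type, emb1, emb2]
  · intro x i
    simp [PiLp.inner_apply, Fintype.sum_sum_type, emb1]
  · intro x i
    simp [PiLp.inner_apply, Fintype.sum_sum_type, emb2]
  · intro x
    ext i
    rcases i with i | i | i <;> simp [emb1, emb2, swp]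

end frame

end KP
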