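import Pool.Agent.Helper738.KP.Limit

/-!
Set function inequality and its consequences.
-/

open MeasureTheory Real Set Filter Topology
open scoped ContDiff ENNReal NNReal RealInnerProductSpace

namespace KP

set_option maxHeartbeats 400000

variable {ι : Type*} [Fintype ι] [DecidableEq ι] {J : Type*} [Fintype J]

theorem setfn_ineq_eq (hcard : Fintype.card ι = Fintype.card J + 4)
    {φ : Finset ι → ℝ} (h0 : φ ∅ = 0) (hφ : Submod φ)
    (p q : ι → EuclideanSpace ℝ J) (hpq : ∀ i j, ‖q i - q j‖ ≤ ‖p i - p j‖) (c : ι → ℝ) :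
    ∫ x : EuclideanSpace ℝ J, φ (Finset.univ.filter fun i => hh q c x i < 0) ≤
      ∫ x : EuclideanSpace ℝ J, φ (Finset.univ.filter fun i => hh p c x i < 0) :=
  le_of_tendsto_of_tendsto' (integral_Phi_tendsto φ h0 q c) (integral_Phi_tendsto φ h0 p c)
    fun n => smooth_ineq hcard (isChi_chi n) h0 hφ p q hpq c

/-- The general inequality, for at most `d + 4` balls. -/
theorem setfn_ineq (hcard : Fintype.card ι ≤ Fintype.card J + 4)
    {φ : Finset ι → ℝ} (h0 : φ ∅ = 0) (hφ : Submod φ)
    (p q : ι → EuclideanSpace ℝ J) (hpq : ∀ i j, ‖q i - q j‖ ≤ ‖p i - p j‖) (c : ι → ℝ) :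
    ∫ x : EuclideanSpace ℝ J, φ (Finset.univ.filter fun i => hh q c x i < 0) ≤
      ∫ x : EuclideanSpace ℝ J, φ (Finset.univ.filter fun i => hh p c x i < 0) := by
  classical
  rcases isEmpty_or_nonempty ι with hι | ⟨⟨i₀⟩⟩
  · have h1 : ∀ s : Finset ι, φ s = 0 := fun s => by rw [Finset.eq_empty_of_isEmpty s, h0]
    simp [h1]
  · obtain ⟨m, hm⟩ : ∃ m, Fintype.card ι + m = Fintype.card J + 4 := ⟨_, Nat.add_sub_cancel' hcard⟩
    set g : ι ⊕ Fin m → ι := Sum.elim id (fun _ => i₀) with hg
    set pre : Finset (ι ⊕ Fin m) → Finset ι := fun S =>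
      Finset.univ.filter fun i => Sum.inl i ∈ S with hpre
    have hpre_inl : ∀ (S : Finset (ι ⊕ Fin m)) (a : ι), pre (insert (Sum.inl a) S) =
        insert a (pre S) := by
      intro S a
      ext i
      simp [hpre]
    have hpre_inr : ∀ (S : Finset (ι ⊕ Fin m)) (a : Fin m), pre (insert (Sum.inr a) S) = pre S := by
      intro S a
      ext i
      simp [hpre]
    have hsub : Submod (fun S => φ (pre S)) := by
      intro t a b hab hat hbt
      simp only
      rcases a with a | a
      · rcases b with b | b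
        · rw [hpre_inl, hpre_inl, hpre_inl]
          refine hφ (pre t) a b (fun h => hab (by rw [h])) ?_ ?_
          · simpa [hpre] using hat
          · simpa [hpre] using hbt
        · simp only [hpre_inl, hpre_inr]
          exact (add_comm _ _).le
      · simp only [hpre_inr]
        exact le_rfl
    have hmain := setfn_ineq_eq (ι := ι ⊕ Fin m) (J := J) (by simp [hm])
      (φ := fun S => φ (pre S)) (by simp [hpre, h0]) hsub (fun i => p (g i)) (fun i => q (g i))
      (fun i j => hpq _ _) (fun i => c (g i))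
    have hconv : ∀ (r : ι → EuclideanSpace ℝ J) (x : EuclideanSpace ℝ J),
        pre (Finset.univ.filter fun i => hh (fun i => r (g i)) (fun i => c (g i)) x i < 0) =
        Finset.univ.filter fun i => hh r c x i < 0 := by
      intro r x
      ext i
      simp [hpre, hh, hg]
    simp only [hconv] at hmain
    exact hmain

/-! ### Conversion to closed balls -/

section conv

variable {E : Type*} [NormedAddCommGroup E] [InnerProductSpace ℝ E] [FiniteDimensional ℝ E]
  [MeasurableSpace E] [BorelSpace E]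

lemma ae_filter_eq (p : ι → E) (ρ : ι → ℝ) (hρ : ∀ i, 0 < ρ i) :
    ∀ᵐ x : E, (Finset.univ.filter fun i => hh p (fun i => ρ i ^ 2) x i < 0) =
      Finset.univ.filter fun i => dist x (p i) ≤ ρ i := by
  have h1 : ∀ᵐ x : E, ∀ i, x ∉ Metric.sphere (p i) (ρ i) := by
    rw [ae_all_iff]
    intro i
    exact measure_eq_zero_iff_ae_notMem.1
      (Measure.addHaar_sphere_of_ne_zero volume (p i) (hρ i).ne')
  filter_upwards [h1] with x hx
  refine Finset.filter_congr fun i _ => ?_
  have h2 : dist x (p i) ≠ ρ i := hx i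
  unfold hh
  rw [sub_neg, dist_eq_norm] at *
  rw [sq_lt_sq₀ (norm_nonneg _) (hρ i).le]
  exact ⟨le_of_lt, fun h => lt_of_le_of_ne h h2⟩

end conv

theorem setfn_ineq_closed (hcard : Fintype.card ι ≤ Fintype.card J + 4)
    {φ : Finset ι → ℝ} (h0 : φ ∅ = 0) (hφ : Submod φ)
    (p q : ι → EuclideanSpace ℝ J) (hpq : ∀ i j, dist (q i) (q j) ≤ dist (p i) (p j))
    (ρ : ι → ℝ) (hρ : ∀ i, 0 < ρ i) :
    ∫ x : EuclideanSpace ℝ J, φ (Finset.univ.filter fun i => dist x (q i) ≤ ρ i) ≤
      ∫ x : EuclideanSpace ℝ J, φ (Finset.univ.filter fun i => dist x (p i) ≤ ρ i) := by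
  have h1 := setfn_ineq hcard h0 hφ p q
    (fun i j => by simpa [dist_eq_norm] using hpq i j) (fun i => ρ i ^ 2)
  have h2 : ∀ r : ι → EuclideanSpace ℝ J,
      ∫ x : EuclideanSpace ℝ J, φ (Finset.univ.filter fun i =>
        hh r (fun i => ρ i ^ 2) x i < 0) =
      ∫ x : EuclideanSpace ℝ J, φ (Finset.univ.filter fun i => dist x (r i) ≤ ρ i) := by
    intro r
    refine integral_congr_ae ?_
    filter_upwards [ae_filter_eq r ρ hρ] with x hx
    rw [hx]
  rw [h2, h2] at h1
  exact h1

end KP
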