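import Pool.Agent.Helper738.KP.Cone

/-!
Cones and mixtures of orthants.
-/

open MeasureTheory Real Set Filter Topology
open scoped ENNReal NNReal RealInnerProductSpace

namespace KP

variable {V : Type*} [NormedAddCommGroup V] [InnerProductSpace ℝ V]
variable {κ : Type*} [Fintype κ]

lemma cone_mono (hκ : 2 ≤ Fintype.card κ) (B : (κ → ℝ) →ₗ[ℝ] V) (hB : Function.Injective B)
    (e : V) (S : Set (κ → ℝ)) (hS : MeasurableSet S)
    (hcone : ∀ ρ : ℝ, 0 < ρ → ∀ y : κ → ℝ, ρ • y ∈ S ↔ y ∈ S) :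
    Monotone (fun T : ℝ => ∫⁻ y in S, ww (T - ‖e + B y‖ ^ 2)) := by
  have hne : Nonempty κ := Fintype.card_pos_iff.1 (by omega)
  have hBc : Continuous B := LinearMap.continuous_of_finiteDimensional B
  have key : ∀ T : ℝ, ∫⁻ y in S, ww (T - ‖e + B y‖ ^ 2) =
      ∫⁻ ω : Metric.sphere (0 : κ → ℝ) 1, (∫⁻ ρ in Ioi (0 : ℝ),
        ENNReal.ofReal (ρ ^ (Fintype.card κ - 1)) *
          S.indicator (fun y => ww (T - ‖e + B y‖ ^ 2)) (ρ • (ω : κ → ℝ)))
        ∂((volume : Measure (κ → ℝ)).toSphere) := by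
    intro T
    rw [← lintegral_indicator hS, lintegral_polar (volume : Measure (κ → ℝ))]
    · simp
    · exact (measurable_ww.comp (Continuous.measurable (by fun_prop))).indicator hS
  intro T₁ T₂ hT
  simp only
  rw [key, key]
  refine lintegral_mono fun ω => ?_
  by_cases hω : (ω : κ → ℝ) ∈ S
  · have h1 : ∀ T : ℝ, ∫⁻ ρ in Ioi (0 : ℝ), ENNReal.ofReal (ρ ^ (Fintype.card κ - 1)) *
          S.indicator (fun y => ww (T - ‖e + B y‖ ^ 2)) (ρ • (ω : κ → ℝ)) =
        ∫⁻ ρ in Ioi (0 : ℝ), ENNReal.ofReal (ρ ^ (Fintype.card κ - 1)) *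
          ww (T - ‖e + ρ • B ω‖ ^ 2) := by
      intro T
      refine setLIntegral_congr_fun measurableSet_Ioi fun ρ hρ => ?_
      rw [indicator_of_mem ((hcone ρ hρ _).2 hω), map_smul]
    rw [h1, h1]
    have hω0 : B (ω : κ → ℝ) ≠ 0 := by
      intro h0
      have h2 : (ω : κ → ℝ) = 0 := hB (by rw [h0, map_zero])
      have h3 := ω.2
      rw [mem_sphere_zero_iff_norm, h2, norm_zero] at h3
      exact zero_ne_one h3
    exact ray_mono (Fintype.card κ - 1) (by omega) e (B ω) hω0 hT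
  · have h1 : ∀ T : ℝ, ∫⁻ ρ in Ioi (0 : ℝ), ENNReal.ofReal (ρ ^ (Fintype.card κ - 1)) *
          S.indicator (fun y => ww (T - ‖e + B y‖ ^ 2)) (ρ • (ω : κ → ℝ)) = 0 := by
      intro T
      rw [setLIntegral_congr_fun (g := fun _ => 0) measurableSet_Ioi fun ρ hρ => ?_]
      · simp
      · simp only
        rw [indicator_of_notMem (fun h => hω ((hcone ρ hρ _).1 h)), mul_zero]
    rw [h1, h1]

lemma mix_mono (hκ : 2 ≤ Fintype.card κ) (B : (κ → ℝ) →ₗ[ℝ] V) (hB : Function.Injective B)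
    (e : V) (μs : κ → Measure ℝ) [∀ k, SigmaFinite (μs k)] (S : κ → Set ℝ)
    (hS : ∀ k, MeasurableSet (S k))
    (hcone : ∀ k, ∀ ρ : ℝ, 0 < ρ → ∀ x : ℝ, ρ * x ∈ S k ↔ x ∈ S k) (d : κ → ℝ) :
    Monotone (fun T : ℝ => ∫⁻ u : κ → ℝ, (∏ k, μs k {σ | u k + d k - σ ∈ S k}) *
      ww (T - ‖e + B u‖ ^ 2)) := by
  have hBc : Continuous B := LinearMap.continuous_of_finiteDimensional B
  set ν : Measure (κ → ℝ) := Measure.pi μs with hν
  set O : Set (κ → ℝ) := Set.pi univ S with hO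
  have hOm : MeasurableSet O := MeasurableSet.univ_pi hS
  have hOc : ∀ ρ : ℝ, 0 < ρ → ∀ y : κ → ℝ, ρ • y ∈ O ↔ y ∈ O := by
    intro ρ hρ y
    simp only [hO, Set.mem_pi, mem_univ, true_implies, Pi.smul_apply, smul_eq_mul, hcone _ ρ hρ]
  have hprod : ∀ u : κ → ℝ, (∏ k, μs k {σ | u k + d k - σ ∈ S k}) =
      ∫⁻ σ : κ → ℝ, O.indicator (fun _ => 1) (u + d - σ) ∂ν := by
    intro u
    rw [← Measure.pi_pi]
    have hm : MeasurableSet ((fun σ : κ → ℝ => u + d - σ) ⁻¹' O) := by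
      refine hOm.preimage (by fun_prop)
    have h1 : (fun σ : κ → ℝ => O.indicator (fun _ => (1 : ℝ≥0∞)) (u + d - σ)) =
        ((fun σ : κ → ℝ => u + d - σ) ⁻¹' O).indicator 1 := by
      ext σ
      by_cases h : u + d - σ ∈ O
      · rw [indicator_of_mem h, indicator_of_mem (by exact h)]; rfl
      · rw [indicator_of_notMem h, indicator_of_notMem (by exact h)]
    rw [h1, lintegral_indicator_one hm]
    congr 1
  have hmO : Measurable (O.indicator (fun _ : κ → ℝ => (1 : ℝ≥0∞))) :=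
    measurable_const.indicator hOm
  have key : ∀ T : ℝ, ∫⁻ u : κ → ℝ, (∏ k, μs k {σ | u k + d k - σ ∈ S k}) *
      ww (T - ‖e + B u‖ ^ 2) =
      ∫⁻ σ : κ → ℝ, (∫⁻ y in O, ww (T - ‖(e - B (d - σ)) + B y‖ ^ 2)) ∂ν := by
    intro T
    have h1 : ∀ u : κ → ℝ, (∏ k, μs k {σ | u k + d k - σ ∈ S k}) * ww (T - ‖e + B u‖ ^ 2) =
        ∫⁻ σ : κ → ℝ, O.indicator (fun _ => 1) (u + d - σ) * ww (T - ‖e + B u‖ ^ 2) ∂ν := by
      intro u
      rw [hprod, lintegral_mul_const]
      exact hmO.comp (by fun_prop)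
    simp_rw [h1]
    rw [lintegral_lintegral_swap]
    · refine lintegral_congr fun σ => ?_
      rw [← lintegral_indicator hOm, ← lintegral_sub_right_eq_self _ (d - σ)]
      refine lintegral_congr fun y => ?_
      have h2 : y - (d - σ) + d - σ = y := by abel
      have h3 : e + B (y - (d - σ)) = (e - B (d - σ)) + B y := by
        rw [map_sub]; abel
      rw [h2, h3]
      by_cases h : y ∈ O
      · rw [indicator_of_mem h, indicator_of_mem h, one_mul]
      · rw [indicator_of_notMem h, indicator_of_notMem h, zero_mul]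
    · refine Measurable.aemeasurable ?_
      have h2 := measurable_ww
      refine Measurable.mul ?_ ?_
      · exact hmO.comp (by fun_prop)
      · exact h2.comp (Continuous.measurable (by fun_prop))
  intro T₁ T₂ hT
  simp only
  rw [key, key]
  exact lintegral_mono fun σ => cone_mono hκ B hB _ O hOm hOc hT

end KP
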