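import Pool.Agent.Helper738.KP.PathLow

/-!
Continuously differentiable contracting motions in two more dimensions.
-/

open MeasureTheory Real Set Filter Topology
open scoped ContDiff ENNReal NNReal RealInnerProductSpace

namespace KP

set_option maxHeartbeats 400000

variable {ι : Type*} [Fintype ι] [DecidableEq ι]

section path

variable {E : Type*} [NormedAddCommGroup E] [InnerProductSpace ℝ E] [FiniteDimensional ℝ E]
  [MeasurableSpace E] [BorelSpace E]
variable {V : Type*} [NormedAddCommGroup V] [InnerProductSpace ℝ V] [FiniteDimensional ℝ V]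
  [MeasurableSpace V] [BorelSpace V]

theorem motion_smooth [Nonempty ι] (hfin : Module.finrank ℝ V = Module.finrank ℝ E + 2)
    (L : E →ₗᵢ[ℝ] V)
    {χ : ℝ → ℝ} (hχ : IsChi χ) {φ : Finset ι → ℝ} (h0 : φ ∅ = 0) (hφ : Submod φ)
    (p q : ι → E) (c : ι → ℝ) (r r' : ℝ → ι → V)
    (hr : ∀ t i, HasDerivAt (fun t => r t i) (r' t i) t) (hr' : ∀ i, Continuous fun t => r' t i)
    (hr0 : ∀ i, r 0 i = L (p i)) (hr1 : ∀ i, r 1 i = L (q i))
    (hmon : ∀ i j, AntitoneOn (fun t => dist (r t i) (r t j)) (Icc 0 1)) :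
    ∫ x : E, Phi χ φ (hh q c x) ≤ ∫ x : E, Phi χ φ (hh p c x) := by
  have hG := good_Phi hχ φ
  have hinner : ∀ t ∈ Ioo (0 : ℝ) 1, ∀ i j : ι, ⟪r t i - r t j, r' t i - r' t j⟫ ≤ 0 := by
    intro t ht i j
    have h1 : HasDerivAt (fun t => ‖r t i - r t j‖ ^ 2)
        (2 * ⟪r t i - r t j, r' t i - r' t j⟫) t := ((hr t i).sub (hr t j)).norm_sq
    have h2 : AntitoneOn (fun t => ‖r t i - r t j‖ ^ 2) (Icc 0 1) := by
      intro s hs u hu hsu
      have := hmon i j hs hu hsu
      simp only [dist_eq_norm] at this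
      exact pow_le_pow_left₀ (norm_nonneg _) this 2
    have h3 := h2.derivWithin_nonpos (x := t)
    have h4 : Icc (0 : ℝ) 1 ∈ 𝓝 t := Icc_mem_nhds ht.1 ht.2
    rw [derivWithin_of_mem_nhds h4, h1.deriv] at h3
    linarith
  set H : (ι → V) → ℝ := fun r => ∫ X : V, (DD^[1] (Phi χ φ)) (hh r c X) with hH
  have hstep : H (fun i => L (p i)) ≤ H (fun i => L (q i)) := by
    set g : ℝ → ℝ := fun t => H (r t) with hg
    have hgd : ∀ t, HasDerivAt g (∑ i, ∑ j,
        (∫ X : V, pd (Pi.single j 1) (pd (Pi.single i 1) (Phi χ φ))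
          (hh (r t) c X)) *
        ⟪r t i - r t j, r' t i - r' t j⟫) t := by
      intro t
      exact hasDerivAt_main hG r r' c hr hr' t
    have hmono : MonotoneOn g (Icc 0 1) := by
      refine monotoneOn_of_deriv_nonneg (convex_Icc _ _)
        (fun t _ => (hgd t).continuousAt.continuousWithinAt)
        (fun t _ => (hgd t).differentiableAt.differentiableWithinAt) ?_
      intro t ht
      rw [interior_Icc] at ht
      rw [(hgd t).deriv]
      refine Finset.sum_nonneg fun i _ => Finset.sum_nonneg fun j _ => ?_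
      by_cases hij : i = j
      · rw [hij]; simp
      · have h1 : ∫ X : V, pd (Pi.single j 1) (pd (Pi.single i 1) (Phi χ φ))
            (hh (r t) c X) ≤ 0 :=
          integral_nonpos fun X => pd_pd_Phi_nonpos hχ hij h0 hφ _
        exact mul_nonneg_of_nonpos_of_nonpos h1 (hinner t ht i j)
    have h1 := hmono (left_mem_Icc.2 zero_le_one) (right_mem_Icc.2 zero_le_one)
      (zero_le_one : (0 : ℝ) ≤ 1)
    simp only [hg] at h1
    have e1 : r 0 = fun i => L (p i) := funext hr0
    have e2 : r 1 = fun i => L (q i) := funext hr1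
    rw [e1, e2] at h1
    exact h1
  obtain ⟨C, hC, hred⟩ := reduction_even (ι := ι) L 0 (by omega)
  simp only [hH] at hstep
  rw [hred _ hG, hred _ hG] at hstep
  simp only [zero_add, pow_one, neg_mul, one_mul, neg_le_neg_iff] at hstep
  exact le_of_mul_le_mul_left hstep hC

end path

variable {J : Type*} [Fintype J]

/-- The point of a space of two more dimensions with two additional zero coordinates. -/
noncomputable def lift2 (x : EuclideanSpace ℝ J) : EuclideanSpace ℝ (J ⊕ Fin 2) :=
  WithLp.toLp 2 (Sum.elim (fun j => x j) (fun _ => 0))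

/-- The same as a linear isometry. -/
noncomputable def lift2L : EuclideanSpace ℝ J →ₗᵢ[ℝ] EuclideanSpace ℝ (J ⊕ Fin 2) where
  toFun x := WithLp.toLp 2 (Sum.elim (fun j => x j) (fun _ => 0))
  map_add' x y := by
    ext i
    rcases i with i | i <;> simp
  map_smul' t x := by
    ext i
    rcases i with i | i <;> simp
  norm_map' x := by
    simp [EuclideanSpace.norm_eq, Fintype.sum_sum_type]

theorem setFnIneq_of_motion
    (p q : ι → EuclideanSpace ℝ J) (ρ : ι → ℝ) (hρ : ∀ i, 0 < ρ i)
    (r : ι → ℝ → EuclideanSpace ℝ (J ⊕ Fin 2)) (hr : ∀ i, ContDiff ℝ 1 (r i))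
    (hr0 : ∀ i, r i 0 = lift2 (p i)) (hr1 : ∀ i, r i 1 = lift2 (q i))
    (hmon : ∀ i j, AntitoneOn (fun t => dist (r i t) (r j t)) (Icc 0 1)) :
    SetFnIneq p q ρ := by
  classical
  intro φ h0 hφ
  rcases isEmpty_or_nonempty ι with hι | hι
  · have h1 : ∀ s : Finset ι, φ s = 0 := fun s => by rw [Finset.eq_empty_of_isEmpty s, h0]
    simp [h1]
  have key : ∫ x : EuclideanSpace ℝ J, φ (Finset.univ.filter fun i =>
        hh q (fun i => ρ i ^ 2) x i < 0) ≤
      ∫ x : EuclideanSpace ℝ J, φ (Finset.univ.filter fun i =>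
        hh p (fun i => ρ i ^ 2) x i < 0) := by
    refine le_of_tendsto_of_tendsto' (integral_Phi_tendsto φ h0 q _)
      (integral_Phi_tendsto φ h0 p _) fun n => ?_
    refine motion_smooth (V := EuclideanSpace ℝ (J ⊕ Fin 2)) ?_ lift2L
      (isChi_chi n) h0 hφ p q _ (fun t i => r i t) (fun t i => deriv (r i) t) ?_ ?_ hr0 hr1 hmon
    · simp only [finrank_euclideanSpace, Fintype.card_sum, Fintype.card_fin]
    · intro t i
      exact ((hr i).differentiable one_ne_zero t).hasDerivAt
    · intro i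
      exact (hr i).continuous_deriv le_rfl
  have h2 : ∀ r : ι → EuclideanSpace ℝ J,
      ∫ x : EuclideanSpace ℝ J, φ (Finset.univ.filter fun i =>
        hh r (fun i => ρ i ^ 2) x i < 0) =
      ∫ x : EuclideanSpace ℝ J, φ (Finset.univ.filter fun i => dist x (r i) ≤ ρ i) := by
    intro r
    refine integral_congr_ae ?_
    filter_upwards [ae_filter_eq r ρ hρ] with x hx
    rw [hx]
  rw [h2, h2] at key
  exact key

end KP
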