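import Pool.Agent.Helper738.KP.Phi

/-!
The leapfrog path.
-/

open MeasureTheory Real Set Filter Topology
open scoped ContDiff ENNReal NNReal RealInnerProductSpace

namespace KP

set_option maxHeartbeats 400000

variable {ι : Type*} [Fintype ι] [DecidableEq ι]

/-- Submodularity of a set function, in local form. -/
def Submod (φ : Finset ι → ℝ) : Prop :=
  ∀ (t : Finset ι) (a b : ι), a ≠ b → a ∉ t → b ∉ t →
    φ t + φ (insert a (insert b t)) ≤ φ (insert a t) + φ (insert b t)

section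

variable {V : Type*} [NormedAddCommGroup V] [InnerProductSpace ℝ V] [FiniteDimensional ℝ V]
  [MeasurableSpace V] [BorelSpace V]

lemma sign_Phi (k : ℕ) (hfin : Module.finrank ℝ V = Fintype.card ι + 2 * k)
    (hcard : 4 ≤ Fintype.card ι) (r : ι → V) (c : ι → ℝ) {a b : ι} (hab : a ≠ b)
    (hr : LinearIndependent ℝ (fun i : {i : ι // i ≠ a} => r i - r a))
    {χ : ℝ → ℝ} (hχ : IsChi χ) {φ : Finset ι → ℝ} (h0 : φ ∅ = 0) (hφ : Submod φ) :
    0 ≤ (-1) ^ k * ∫ X : V, pd (Pi.single b 1) (pd (Pi.single a 1) (DD^[k + 1] (Phi χ φ)))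
      (hh r c X) := by
  have hG := good_Phi hχ φ
  rw [← iter_pd hG, ← iter_pd (hG.pd _), pd_pd_Phi hχ hab φ h0,
    iter_sum _ (fun t _ => good_theta hχ a b t)]
  rw [integral_finsetSum _ (fun t _ => (((good_theta hχ a b t).iter (k + 1)).integrable r c).const_mul _)]
  rw [Finset.mul_sum]
  refine Finset.sum_nonneg fun t ht => ?_
  rw [integral_const_mul]
  have hat : a ∉ t := fun h => by simpa using Finset.mem_powerset.1 ht h
  have hbt : b ∉ t := fun h => by simpa using Finset.mem_powerset.1 ht h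
  have h1 := hφ t a b hab hat hbt
  have h2 := sign_lemma k hfin hcard r c hab hr (theta χ a b t)
    (fun i => (theta_contDiff hχ a b t i).continuous) (theta_nonneg hχ a b t)
    (fun i ha hb => theta_mixed hχ a b t i ha hb) (good_theta hχ a b t)
  rw [pow_succ] at h2
  have h3 : 0 ≤ φ (insert b t) + φ (insert a t) - φ t - φ (insert a (insert b t)) := by linarith
  have h4 := mul_nonneg h3 h2
  linarith

end

section path

variable {E : Type*} [NormedAddCommGroup E] [InnerProductSpace ℝ E] [FiniteDimensional ℝ E]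
  [MeasurableSpace E] [BorelSpace E]
variable {V : Type*} [NormedAddCommGroup V] [InnerProductSpace ℝ V] [FiniteDimensional ℝ V]
  [MeasurableSpace V] [BorelSpace V]

/-- The path. -/
noncomputable def rr (L₁ L₂ : E →ₗᵢ[ℝ] V) (f : ι → V) (p q : ι → E) (δ t : ℝ) (i : ι) : V :=
  cos t • L₁ (p i) + sin t • L₂ (q i) + δ • f i

/-- The velocity of the path. -/
noncomputable def rr' (L₁ L₂ : E →ₗᵢ[ℝ] V) (p q : ι → E) (t : ℝ) (i : ι) : V :=
  -sin t • L₁ (p i) + cos t • L₂ (q i)

theorem path_ineq (k : ℕ) (hfin : Module.finrank ℝ V = Fintype.card ι + 2 * k)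
    (hE : Fintype.card ι = Module.finrank ℝ E + 4) (L₁ L₂ : E →ₗᵢ[ℝ] V) (f : ι → V)
    (hf : Orthonormal ℝ f) (h12 : ∀ x y, ⟪L₁ x, L₂ y⟫ = 0) (h1f : ∀ x i, ⟪L₁ x, f i⟫ = 0)
    (h2f : ∀ x i, ⟪L₂ x, f i⟫ = 0) (Sw : V ≃ₗᵢ[ℝ] V) (hSw : ∀ x, Sw (L₁ x) = L₂ x)
    {χ : ℝ → ℝ} (hχ : IsChi χ) {φ : Finset ι → ℝ} (h0 : φ ∅ = 0) (hφ : Submod φ)
    (p q : ι → E) (hpq : ∀ i j, ‖q i - q j‖ ≤ ‖p i - p j‖) (c : ι → ℝ) :
    ∫ x : E, Phi χ φ (hh q c x) ≤ ∫ x : E, Phi χ φ (hh p c x) := by
  have hne : Nonempty ι := Fintype.card_pos_iff.1 (by omega)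
  have hG := good_Phi hχ φ
  have hΥ := hG.iter (k + 1)
  -- linear independence
  have hlin : ∀ (δ t : ℝ), 0 < δ → ∀ a : ι,
      LinearIndependent ℝ (fun i : {i : ι // i ≠ a} =>
        rr L₁ L₂ f p q δ t i - rr L₁ L₂ f p q δ t a) := by
    intro δ t hδ a
    rw [linearIndependent_iff']
    intro s g hg i hi
    have h1 : ∀ j : {i : ι // i ≠ a}, ⟪rr L₁ L₂ f p q δ t j - rr L₁ L₂ f p q δ t a, f i⟫ =
        if j = i then δ else 0 := by
      intro j
      have hff := orthonormal_iff_ite.1 hf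
      have hai : ¬ (a = (i : ι)) := fun h => i.2 h.symm
      simp only [rr, inner_sub_left, inner_add_left, inner_smul_left, h1f, h2f, hff, hai]
      by_cases hji : j = i
      · simp [hji]
      · have : ¬ ((j : ι) = (i : ι)) := fun h => hji (Subtype.ext h)
        simp [hji, this]
    have h2 := congrArg (fun v => ⟪v, f i⟫) hg
    simp only [sum_inner, inner_smul_left, h1, inner_zero_left] at h2
    simp only [mul_ite, mul_zero, Finset.sum_ite_eq', hi, if_true] at h2
    rcases mul_eq_zero.1 h2 with h3 | h3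
    · simpa using h3
    · exact absurd h3 hδ.ne'
  -- the inner products
  have hinner : ∀ (δ t : ℝ) (i j : ι),
      ⟪rr L₁ L₂ f p q δ t i - rr L₁ L₂ f p q δ t j, rr' L₁ L₂ p q t i - rr' L₁ L₂ p q t j⟫ =
        sin t * cos t * (‖q i - q j‖ ^ 2 - ‖p i - p j‖ ^ 2) := by
    intro δ t i j
    have e1 : rr L₁ L₂ f p q δ t i - rr L₁ L₂ f p q δ t j =
        cos t • L₁ (p i - p j) + sin t • L₂ (q i - q j) + δ • (f i - f j) := by
      simp only [rr, map_sub]
      module
    have e2 : rr' L₁ L₂ p q t i - rr' L₁ L₂ p q t j =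
        -sin t • L₁ (p i - p j) + cos t • L₂ (q i - q j) := by
      simp only [rr', map_sub]
      module
    have h21 : ∀ x y, ⟪L₂ x, L₁ y⟫ = 0 := fun x y => by rw [real_inner_comm]; exact h12 y x
    have hf1 : ∀ i x, ⟪f i, L₁ x⟫ = 0 := fun i x => by rw [real_inner_comm]; exact h1f x i
    have hf2 : ∀ i x, ⟪f i, L₂ x⟫ = 0 := fun i x => by rw [real_inner_comm]; exact h2f x i
    rw [e1, e2]
    simp only [inner_add_left, inner_add_right, inner_smul_left, inner_smul_right,
      inner_sub_left, h12, h21, hf1, hf2, real_inner_self_eq_norm_sq, L₁.norm_map, L₂.norm_map]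
    simp
    ring
  -- for every `δ > 0`
  set H : (ι → V) → ℝ := fun r => ∫ X : V, (DD^[k + 2] (Phi χ φ)) (hh r c X) with hH
  have hstep : ∀ δ : ℝ, 0 < δ → (-1 : ℝ) ^ k * H (fun i => L₂ (q i) + δ • f i) ≤
      (-1 : ℝ) ^ k * H (fun i => L₁ (p i) + δ • f i) := by
    intro δ hδ
    set g : ℝ → ℝ := fun t => (-1 : ℝ) ^ k * H (rr L₁ L₂ f p q δ t) with hg
    have hgd : ∀ t, HasDerivAt g ((-1 : ℝ) ^ k * (∑ i, ∑ j,
        (∫ X : V, pd (Pi.single j 1) (pd (Pi.single i 1) (DD^[k + 1] (Phi χ φ)))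
          (hh (rr L₁ L₂ f p q δ t) c X)) *
        ⟪rr L₁ L₂ f p q δ t i - rr L₁ L₂ f p q δ t j,
          rr' L₁ L₂ p q t i - rr' L₁ L₂ p q t j⟫)) t := by
      intro t
      have h1 := hasDerivAt_main hΥ (rr L₁ L₂ f p q δ) (rr' L₁ L₂ p q) c ?_ ?_ t
      · have h2 : (fun t => ∫ X : V, DD (DD^[k + 1] (Phi χ φ)) (hh (rr L₁ L₂ f p q δ t) c X)) =
            fun t => H (rr L₁ L₂ f p q δ t) := by
          ext t
          simp only [hH]
          rw [← Function.iterate_succ_apply' DD (k + 1) (Phi χ φ)]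
        rw [h2] at h1
        exact h1.const_mul _
      · intro t i
        unfold rr rr'
        have h2 := ((hasDerivAt_cos t).smul_const (L₁ (p i))).add
          ((hasDerivAt_sin t).smul_const (L₂ (q i)))
        exact h2.add_const _
      · intro i
        unfold rr'
        fun_prop
    have hanti : AntitoneOn g (Icc 0 (π / 2)) := by
      refine antitoneOn_of_deriv_nonpos (convex_Icc _ _)
        (fun t _ => (hgd t).continuousAt.continuousWithinAt)
        (fun t _ => (hgd t).differentiableAt.differentiableWithinAt) ?_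
      intro t ht
      rw [interior_Icc] at ht
      rw [(hgd t).deriv, Finset.mul_sum]
      refine Finset.sum_nonpos fun i _ => ?_
      rw [Finset.mul_sum]
      refine Finset.sum_nonpos fun j _ => ?_
      rw [hinner]
      by_cases hij : i = j
      · rw [hij]; simp
      · have h1 := sign_Phi k hfin (by omega) (rr L₁ L₂ f p q δ t) c hij (hlin δ t hδ i) hχ h0 hφ
        have hs : 0 ≤ sin t := sin_nonneg_of_nonneg_of_le_pi ht.1.le (by linarith [ht.2, pi_pos])
        have hc : 0 ≤ cos t := cos_nonneg_of_neg_pi_div_two_le_of_le (by linarith [ht.1, pi_pos])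
          ht.2.le
        have h2 : ‖q i - q j‖ ^ 2 - ‖p i - p j‖ ^ 2 ≤ 0 := by
          have := pow_le_pow_left₀ (norm_nonneg _) (hpq i j) 2
          linarith
        have h3 : sin t * cos t * (‖q i - q j‖ ^ 2 - ‖p i - p j‖ ^ 2) ≤ 0 :=
          mul_nonpos_of_nonneg_of_nonpos (mul_nonneg hs hc) h2
        rw [← mul_assoc]
        exact mul_nonpos_of_nonneg_of_nonpos h1 h3
    have h1 := hanti (left_mem_Icc.2 (by positivity)) (right_mem_Icc.2 (by positivity))
      (by positivity : (0 : ℝ) ≤ π / 2)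
    simp only [hg] at h1
    have e1 : rr L₁ L₂ f p q δ 0 = fun i => L₁ (p i) + δ • f i := by
      ext i; simp [rr]
    have e2 : rr L₁ L₂ f p q δ (π / 2) = fun i => L₂ (q i) + δ • f i := by
      ext i; simp [rr]
    rw [e1, e2] at h1
    exact h1
  -- limit `δ → 0`
  have hlim : ∀ u : ι → V, Tendsto (fun δ : ℝ => (-1 : ℝ) ^ k * H (fun i => u i + δ • f i))
      (𝓝[>] 0) (𝓝 ((-1 : ℝ) ^ k * H u)) := by
    intro u
    have h1 := hasDerivAt_path (hG.iter (k + 2)) (fun δ i => u i + δ • f i) (fun _ i => f i)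
      (fun _ => c) (fun _ _ => 0)
      (fun t i => by simpa using ((hasDerivAt_id t).smul_const (f i)).const_add (u i))
      (fun i => continuous_const) (fun t i => hasDerivAt_const t (c i))
      (fun i => continuous_const) 0
    have h2 : Tendsto (fun δ : ℝ => H (fun i => u i + δ • f i)) (𝓝 0)
        (𝓝 (H (fun i => u i + (0 : ℝ) • f i))) := h1.continuousAt
    simp only [zero_smul, add_zero] at h2
    exact (h2.mono_left nhdsWithin_le_nhds).const_mul _
  have hfinal : (-1 : ℝ) ^ k * H (fun i => L₂ (q i)) ≤ (-1 : ℝ) ^ k * H (fun i => L₁ (p i)) := by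
    refine le_of_tendsto_of_tendsto (hlim _) (hlim _) ?_
    filter_upwards [self_mem_nhdsWithin] with δ hδ
    exact hstep δ hδ
  -- swap
  have hswap : H (fun i => L₂ (q i)) = H (fun i => L₁ (q i)) := by
    simp only [hH]
    rw [← Sw.measurePreserving.integral_comp Sw.toHomeomorph.measurableEmbedding]
    refine integral_congr_ae (Eventually.of_forall fun X => ?_)
    have h1 : hh (fun i => L₂ (q i)) c (Sw X) = hh (fun i => L₁ (q i)) c X := by
      ext i
      unfold hh
      simp only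
      rw [← hSw, ← map_sub, Sw.norm_map]
    simp only [h1]
  rw [hswap] at hfinal
  obtain ⟨C, hC, hred⟩ := reduction_even (ι := ι) L₁ (k + 1) (by omega)
  simp only [hH] at hfinal
  rw [hred _ hG, hred _ hG] at hfinal
  have h1 : (-1 : ℝ) ^ k * (-1) ^ (k + 1 + 1) = 1 := by
    rw [← pow_add]
    exact Even.neg_one_pow ⟨k + 1, by ring⟩
  have h2 : ∀ x : ℝ, (-1 : ℝ) ^ k * ((-1) ^ (k + 1 + 1) * x) = x := by
    intro x
    rw [← mul_assoc, h1, one_mul]
  rw [h2, h2] at hfinal
  exact le_of_mul_le_mul_left hfinal hC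

end path

end KP
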