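import Pool.Agent.Helper738.KP.Kneser

/-!
The leapfrog path when two orthogonal copies of the space fit into two more dimensions.
-/

open MeasureTheory Real Set Filter Topology
open scoped ContDiff ENNReal NNReal RealInnerProductSpace

namespace KP

set_option maxHeartbeats 400000

variable {ι : Type*} [Fintype ι] [DecidableEq ι]

lemma pd_pd_Phi_nonpos {χ : ℝ → ℝ} (hχ : IsChi χ) {a b : ι} (hab : a ≠ b) {φ : Finset ι → ℝ}
    (h0 : φ ∅ = 0) (hφ : Submod φ) (h : ι → ℝ) :
    pd (Pi.single b 1) (pd (Pi.single a 1) (Phi χ φ)) h ≤ 0 := by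
  rw [pd_pd_Phi hχ hab φ h0]
  refine Finset.sum_nonpos fun t ht => ?_
  have hat : a ∉ t := fun h => by simpa using Finset.mem_powerset.1 ht h
  have hbt : b ∉ t := fun h => by simpa using Finset.mem_powerset.1 ht h
  have h1 := hφ t a b hab hat hbt
  refine mul_nonpos_of_nonpos_of_nonneg (by linarith) ?_
  exact Finset.prod_nonneg fun i _ => theta_nonneg hχ a b t i _

section path

variable {E : Type*} [NormedAddCommGroup E] [InnerProductSpace ℝ E] [FiniteDimensional ℝ E]
  [MeasurableSpace E] [BorelSpace E]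
variable {V : Type*} [NormedAddCommGroup V] [InnerProductSpace ℝ V] [FiniteDimensional ℝ V]
  [MeasurableSpace V] [BorelSpace V]

theorem path_low [Nonempty ι] (hfin : Module.finrank ℝ V = Module.finrank ℝ E + 2)
    (L₁ L₂ : E →ₗᵢ[ℝ] V) (h12 : ∀ x y, ⟪L₁ x, L₂ y⟫ = 0)
    (Sw : V ≃ₗᵢ[ℝ] V) (hSw : ∀ x, Sw (L₁ x) = L₂ x)
    {χ : ℝ → ℝ} (hχ : IsChi χ) {φ : Finset ι → ℝ} (h0 : φ ∅ = 0) (hφ : Submod φ)
    (p q : ι → E) (hpq : ∀ i j, ‖q i - q j‖ ≤ ‖p i - p j‖) (c : ι → ℝ) :
    ∫ x : E, Phi χ φ (hh q c x) ≤ ∫ x : E, Phi χ φ (hh p c x) := by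
  have hG := good_Phi hχ φ
  have hinner : ∀ (t : ℝ) (i j : ι),
      ⟪rr L₁ L₂ (fun _ => 0) p q 0 t i - rr L₁ L₂ (fun _ => 0) p q 0 t j,
        rr' L₁ L₂ p q t i - rr' L₁ L₂ p q t j⟫ =
        sin t * cos t * (‖q i - q j‖ ^ 2 - ‖p i - p j‖ ^ 2) := by
    intro t i j
    have e1 : rr L₁ L₂ (fun _ => 0) p q 0 t i - rr L₁ L₂ (fun _ => 0) p q 0 t j =
        cos t • L₁ (p i - p j) + sin t • L₂ (q i - q j) := by
      simp only [rr, map_sub]
      module
    have e2 : rr' L₁ L₂ p q t i - rr' L₁ L₂ p q t j =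
        -sin t • L₁ (p i - p j) + cos t • L₂ (q i - q j) := by
      simp only [rr', map_sub]
      module
    have h21 : ∀ x y, ⟪L₂ x, L₁ y⟫ = 0 := fun x y => by rw [real_inner_comm]; exact h12 y x
    rw [e1, e2]
    simp only [inner_add_left, inner_add_right, inner_smul_left, inner_smul_right,
      h12, h21, real_inner_self_eq_norm_sq, L₁.norm_map, L₂.norm_map]
    simp
    ring
  set H : (ι → V) → ℝ := fun r => ∫ X : V, (DD^[1] (Phi χ φ)) (hh r c X) with hH
  have hstep : H (fun i => L₁ (p i)) ≤ H (fun i => L₂ (q i)) := by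
    set g : ℝ → ℝ := fun t => H (rr L₁ L₂ (fun _ => 0) p q 0 t) with hg
    have hgd : ∀ t, HasDerivAt g (∑ i, ∑ j,
        (∫ X : V, pd (Pi.single j 1) (pd (Pi.single i 1) (Phi χ φ))
          (hh (rr L₁ L₂ (fun _ => 0) p q 0 t) c X)) *
        ⟪rr L₁ L₂ (fun _ => 0) p q 0 t i - rr L₁ L₂ (fun _ => 0) p q 0 t j,
          rr' L₁ L₂ p q t i - rr' L₁ L₂ p q t j⟫) t := by
      intro t
      have h1 := hasDerivAt_main hG (rr L₁ L₂ (fun _ => 0) p q 0) (rr' L₁ L₂ p q) c ?_ ?_ t
      · exact h1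
      · intro t i
        unfold rr rr'
        have h2 := ((hasDerivAt_cos t).smul_const (L₁ (p i))).add
          ((hasDerivAt_sin t).smul_const (L₂ (q i)))
        exact h2.add_const _
      · intro i
        unfold rr'
        fun_prop
    have hmono : MonotoneOn g (Icc 0 (π / 2)) := by
      refine monotoneOn_of_deriv_nonneg (convex_Icc _ _)
        (fun t _ => (hgd t).continuousAt.continuousWithinAt)
        (fun t _ => (hgd t).differentiableAt.differentiableWithinAt) ?_
      intro t ht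
      rw [interior_Icc] at ht
      rw [(hgd t).deriv]
      refine Finset.sum_nonneg fun i _ => Finset.sum_nonneg fun j _ => ?_
      rw [hinner]
      by_cases hij : i = j
      · rw [hij]; simp
      · have h1 : ∫ X : V, pd (Pi.single j 1) (pd (Pi.single i 1) (Phi χ φ))
            (hh (rr L₁ L₂ (fun _ => 0) p q 0 t) c X) ≤ 0 :=
          integral_nonpos fun X => pd_pd_Phi_nonpos hχ hij h0 hφ _
        have hs : 0 ≤ sin t := sin_nonneg_of_nonneg_of_le_pi ht.1.le (by linarith [ht.2, pi_pos])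
        have hc : 0 ≤ cos t := cos_nonneg_of_neg_pi_div_two_le_of_le (by linarith [ht.1, pi_pos])
          ht.2.le
        have h2 : ‖q i - q j‖ ^ 2 - ‖p i - p j‖ ^ 2 ≤ 0 := by
          have := pow_le_pow_left₀ (norm_nonneg _) (hpq i j) 2
          linarith
        have h3 : sin t * cos t * (‖q i - q j‖ ^ 2 - ‖p i - p j‖ ^ 2) ≤ 0 :=
          mul_nonpos_of_nonneg_of_nonpos (mul_nonneg hs hc) h2
        exact mul_nonneg_of_nonpos_of_nonpos h1 h3
    have h1 := hmono (left_mem_Icc.2 (by positivity)) (right_mem_Icc.2 (by positivity))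
      (by positivity : (0 : ℝ) ≤ π / 2)
    simp only [hg] at h1
    have e1 : rr L₁ L₂ (fun _ => 0) p q 0 0 = fun i => L₁ (p i) := by
      ext i; simp [rr]
    have e2 : rr L₁ L₂ (fun _ => 0) p q 0 (π / 2) = fun i => L₂ (q i) := by
      ext i; simp [rr]
    rw [e1, e2] at h1
    exact h1
  have hswap : H (fun i => L₂ (q i)) = H (fun i => L₁ (q i)) := by
    simp only [hH]
    rw [← Sw.measurePreserving.integral_comp Sw.toHomeomorph.measurableEmbedding]
    refine integral_congr_ae (Eventually.of_forall fun X => ?_)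
    have h1 : hh (fun i => L₂ (q i)) c (Sw X) = hh (fun i => L₁ (q i)) c X := by
      ext i
      unfold hh
      simp only
      rw [← hSw, ← map_sub, Sw.norm_map]
    simp only [h1]
  rw [hswap] at hstep
  obtain ⟨C, hC, hred⟩ := reduction_even (ι := ι) L₁ 0 (by omega)
  simp only [hH] at hstep
  rw [hred _ hG, hred _ hG] at hstep
  simp only [zero_add, pow_one, neg_mul, one_mul, neg_le_neg_iff] at hstep
  exact le_of_mul_le_mul_left hstep hC

end path

variable {J : Type*} [Fintype J]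

theorem setFnIneq_of_low (hJ : Fintype.card J ≤ 2)
    (p q : ι → EuclideanSpace ℝ J) (hpq : ∀ i j, dist (q i) (q j) ≤ dist (p i) (p j))
    (ρ : ι → ℝ) (hρ : ∀ i, 0 < ρ i) : SetFnIneq p q ρ := by
  classical
  intro φ h0 hφ
  rcases isEmpty_or_nonempty ι with hι | hι
  · have h1 : ∀ s : Finset ι, φ s = 0 := fun s => by rw [Finset.eq_empty_of_isEmpty s, h0]
    simp [h1]
  obtain ⟨m, hm⟩ : ∃ m, Fintype.card J + m = 2 := ⟨_, Nat.add_sub_cancel' hJ⟩
  have key : ∫ x : EuclideanSpace ℝ J, φ (Finset.univ.filter fun i =>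
        hh q (fun i => ρ i ^ 2) x i < 0) ≤
      ∫ x : EuclideanSpace ℝ J, φ (Finset.univ.filter fun i =>
        hh p (fun i => ρ i ^ 2) x i < 0) := by
    refine le_of_tendsto_of_tendsto' (integral_Phi_tendsto φ h0 q _)
      (integral_Phi_tendsto φ h0 p _) fun n => ?_
    refine path_low (V := EuclideanSpace ℝ (J ⊕ (J ⊕ Fin m))) ?_ (emb1 J (Fin m))
      (emb2 J (Fin m)) ?_ (LinearIsometryEquiv.piLpCongrLeft 2 ℝ ℝ (swp J (Fin m))) ?_
      (isChi_chi n) h0 hφ p q (fun i j => by simpa [dist_eq_norm] using hpq i j) _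
    · simp only [finrank_euclideanSpace, Fintype.card_sum, Fintype.card_fin]
      omega
    · intro x y
      simp [PiLp.inner_apply, Fintype.sum_sum_type, emb1, emb2]
    · intro x
      ext i
      rcases i with i | i | i <;> simp [emb1, emb2, swp]
  have h2 : ∀ r : ι → EuclideanSpace ℝ J,
      ∫ x : EuclideanSpace ℝ J, φ (Finset.univ.filter fun i =>
        hh r (fun i => ρ i ^ 2) x i < 0) =
      ∫ x : EuclideanSpace ℝ J, φ (Finset.univ.filter fun i => dist x (r i) ≤ ρ i) := by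
    intro r
    refine integral_congr_ae ?_
    filter_upwards [ae_filter_eq r ρ hρ] with x hx
    rw [hx]
  rw [h2, h2] at key
  exact key

end KP
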