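import Pool.Agent.Helper738.KP.Sign2

/-!
The smooth set-function integrand and its mixed second derivatives.
-/

open MeasureTheory Real Set Filter Topology
open scoped ContDiff ENNReal NNReal RealInnerProductSpace

namespace KP

set_option maxHeartbeats 400000

/-- A smooth decreasing cutoff function. -/
structure IsChi (χ : ℝ → ℝ) : Prop where
  smooth : ContDiff ℝ ∞ χ
  anti : Antitone χ
  zero : ∀ x, 0 ≤ x → χ x = 0
  one : ∃ L, ∀ x, x ≤ L → χ x = 1

/-- A concrete sequence of cutoff functions. -/
noncomputable def chi (n : ℕ) (x : ℝ) : ℝ := Real.smoothTransition (-(((n : ℝ) + 1) * x))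

lemma isChi_chi (n : ℕ) : IsChi (chi n) := by
  refine ⟨?_, ?_, ?_, ?_⟩
  · unfold chi
    exact (Real.smoothTransition.contDiff (n := ⊤)).comp (by fun_prop)
  · intro x y hxy
    unfold chi
    apply Real.smoothTransition.monotone
    have : (0 : ℝ) ≤ (n : ℝ) + 1 := by positivity
    nlinarith
  · intro x hx
    unfold chi
    apply Real.smoothTransition.zero_of_nonpos
    have : (0 : ℝ) ≤ ((n : ℝ) + 1) * x := by positivity
    linarith
  · refine ⟨-1, fun x hx => ?_⟩
    unfold chi
    apply Real.smoothTransition.one_of_one_le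
    have : (0 : ℝ) ≤ (n : ℝ) := by positivity
    nlinarith

lemma chi_tendsto (x : ℝ) : Tendsto (fun n => chi n x) atTop (𝓝 (if x < 0 then 1 else 0)) := by
  split_ifs with h
  · obtain ⟨N, hN⟩ := exists_nat_ge (1 / (-x))
    refine tendsto_const_nhds.congr' ?_
    filter_upwards [eventually_ge_atTop N] with n hn
    unfold chi
    rw [Real.smoothTransition.one_of_one_le]
    have h1 : (1 : ℝ) / (-x) ≤ n + 1 := by
      have : (N : ℝ) ≤ n := by exact_mod_cast hn
      linarith
    rw [div_le_iff₀ (by linarith)] at h1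
    linarith
  · refine tendsto_const_nhds.congr' ?_
    filter_upwards with n
    rw [(isChi_chi n).zero x (not_lt.1 h)]

namespace IsChi

variable {χ : ℝ → ℝ} (hχ : IsChi χ)
include hχ

lemma nonneg (x : ℝ) : 0 ≤ χ x := by
  have := hχ.anti (le_max_left x 0)
  rwa [hχ.zero _ (le_max_right x 0)] at this

lemma le_one (x : ℝ) : χ x ≤ 1 := by
  obtain ⟨L, hL⟩ := hχ.one
  have := hχ.anti (min_le_left x L)
  rwa [hL _ (min_le_right x L)] at this

lemma continuous : Continuous χ := hχ.smooth.continuous

lemma differentiable : Differentiable ℝ χ := hχ.smooth.differentiable (by simp)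

/-- The associated Stieltjes function. -/
noncomputable def stieltjes : StieltjesFunction ℝ where
  toFun := fun x => - χ x
  mono' := fun x y hxy => neg_le_neg (hχ.anti hxy)
  right_continuous' := fun x => hχ.continuous.neg.continuousWithinAt

lemma tendsto_atTop : Tendsto (hχ.stieltjes) atTop (𝓝 0) := by
  refine tendsto_const_nhds.congr' ?_
  filter_upwards [eventually_ge_atTop 0] with x hx
  show (0 : ℝ) = - χ x
  rw [hχ.zero x hx, neg_zero]

lemma tendsto_atBot : Tendsto (hχ.stieltjes) atBot (𝓝 (-1)) := by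
  obtain ⟨L, hL⟩ := hχ.one
  refine tendsto_const_nhds.congr' ?_
  filter_upwards [eventually_le_atBot L] with x hx
  show (-1 : ℝ) = - χ x
  rw [hL x hx]

lemma mixed : Mixed χ := by
  refine ⟨hχ.stieltjes.measure, Iio 0, inferInstance, measurableSet_Iio, ?_, ?_⟩
  · intro ρ hρ x
    simp only [mem_Iio]
    constructor
    · intro h
      by_contra h'
      have := mul_nonneg hρ.le (not_lt.1 h')
      linarith
    · intro h
      exact mul_neg_of_pos_of_neg hρ h
  · intro x
    have h1 : {σ : ℝ | x - σ ∈ Iio (0 : ℝ)} = Ioi x := by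
      ext σ
      simp
    rw [h1, StieltjesFunction.measure_Ioi _ hχ.tendsto_atTop]
    show ENNReal.ofReal (χ x) = ENNReal.ofReal (0 - - χ x)
    simp

lemma mixed' : Mixed (fun x => 1 - χ x) := by
  refine ⟨hχ.stieltjes.measure, Ici 0, inferInstance, measurableSet_Ici, ?_, ?_⟩
  · intro ρ hρ x
    simp only [mem_Ici]
    exact mul_nonneg_iff_of_pos_left hρ
  · intro x
    have h1 : {σ : ℝ | x - σ ∈ Ici (0 : ℝ)} = Iic x := by
      ext σ
      simp
    rw [h1, StieltjesFunction.measure_Iic _ hχ.tendsto_atBot]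
    show ENNReal.ofReal (1 - χ x) = ENNReal.ofReal (- χ x - (-1))
    congr 1
    ring

lemma deriv_nonpos (x : ℝ) : deriv χ x ≤ 0 := hχ.anti.deriv_nonpos

lemma deriv_zero (x : ℝ) (hx : 1 ≤ x) : deriv χ x = 0 := by
  have : χ =ᶠ[𝓝 x] fun _ => 0 := by
    filter_upwards [Ioi_mem_nhds (show (0 : ℝ) < x by linarith)] with y hy
    exact hχ.zero y (le_of_lt hy)
  rw [this.deriv_eq]
  simp

lemma contDiff_deriv : ContDiff ℝ ∞ (deriv χ) :=
  ((contDiff_succ_iff_deriv (n := ∞)).1 hχ.smooth).2.2

end IsChi

variable {ι : Type*} [Fintype ι] [DecidableEq ι]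

lemma good_prod {η : ι → ℝ → ℝ} (hs : ∀ i, ContDiff ℝ ∞ (η i))
    (hz : ∃ i C, ∀ x, C ≤ x → η i x = 0) : Good (fun h : ι → ℝ => ∏ i, η i (h i)) := by
  refine ⟨?_, ?_⟩
  · refine contDiff_prod fun i _ => (hs i).comp (contDiff_apply ℝ ℝ i)
  · obtain ⟨i, C, hC⟩ := hz
    exact ⟨C, fun h hh => Finset.prod_eq_zero (Finset.mem_univ i) (hC _ (hh i))⟩

lemma pd_prod {η : ι → ℝ → ℝ} (hs : ∀ i, ContDiff ℝ ∞ (η i)) (a : ι) :
    pd (Pi.single a 1) (fun h : ι → ℝ => ∏ i, η i (h i)) =
      fun h => ∏ i, (Function.update η a (deriv (η a))) i (h i) := by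
  ext h
  have hsm : ContDiff ℝ ∞ (fun h : ι → ℝ => ∏ i, η i (h i)) :=
    contDiff_prod fun i _ => (hs i).comp (contDiff_apply ℝ ℝ i)
  have hdiff : DifferentiableAt ℝ (fun h : ι → ℝ => ∏ i, η i (h i)) h :=
    hsm.differentiable (by simp) h
  -- line through `h`
  have h1 : HasDerivAt (fun t : ℝ => h + t • (Pi.single a 1 : ι → ℝ)) (Pi.single a 1) 0 := by
    simpa using ((hasDerivAt_id (0 : ℝ)).smul_const (Pi.single a 1 : ι → ℝ)).const_add h
  have h2 : HasDerivAt (fun t : ℝ => ∏ i, η i ((h + t • (Pi.single a 1 : ι → ℝ)) i))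
      (pd (Pi.single a 1) (fun h : ι → ℝ => ∏ i, η i (h i)) h) 0 := by
    have hd' : HasFDerivAt (fun h : ι → ℝ => ∏ i, η i (h i))
        (fderiv ℝ (fun h : ι → ℝ => ∏ i, η i (h i)) h)
        (h + (0 : ℝ) • (Pi.single a 1 : ι → ℝ)) := by
      rw [zero_smul, add_zero]
      exact hdiff.hasFDerivAt
    exact hd'.comp_hasDerivAt 0 h1
  have h3 : (fun t : ℝ => ∏ i, η i ((h + t • (Pi.single a 1 : ι → ℝ)) i)) =
      fun t : ℝ => η a (h a + t) * ∏ i ∈ Finset.univ.erase a, η i (h i) := by
    ext t
    rw [← Finset.mul_prod_erase Finset.univ _ (Finset.mem_univ a)]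
    congr 1
    · simp
    · refine Finset.prod_congr rfl fun i hi => ?_
      have : i ≠ a := (Finset.mem_erase.1 hi).1
      simp [Pi.single_apply, this]
  have h4 : HasDerivAt (fun t : ℝ => η a (h a + t) * ∏ i ∈ Finset.univ.erase a, η i (h i))
      (deriv (η a) (h a) * ∏ i ∈ Finset.univ.erase a, η i (h i)) 0 := by
    refine HasDerivAt.mul_const ?_ _
    have h5 : HasDerivAt (fun t : ℝ => h a + t) 1 0 := by
      simpa using (hasDerivAt_id (0 : ℝ)).const_add (h a)
    have h6 : HasDerivAt (η a) (deriv (η a) (h a)) (h a + 0) := by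
      rw [add_zero]
      exact (((hs a).differentiable (by simp)) (h a)).hasDerivAt
    have := h6.comp (0 : ℝ) h5
    rw [mul_one] at this
    exact this
  rw [h3] at h2
  rw [h2.unique h4, ← Finset.mul_prod_erase Finset.univ _ (Finset.mem_univ a)]
  congr 1
  · simp
  · refine Finset.prod_congr rfl fun i hi => ?_
    have : i ≠ a := (Finset.mem_erase.1 hi).1
    simp [this]

/-- The factors attached to a set `S` of indices. -/
noncomputable def eta (χ : ℝ → ℝ) (S : Finset ι) (i : ι) : ℝ → ℝ :=
  if i ∈ S then χ else fun x => 1 - χ x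

/-- The factors of the mixed second derivative. -/
noncomputable def theta (χ : ℝ → ℝ) (a b : ι) (S : Finset ι) : ι → ℝ → ℝ :=
  Function.update (Function.update (eta χ S) a (fun x => - deriv χ x)) b (fun x => - deriv χ x)

/-- The smoothed integrand attached to the set function `φ`. -/
noncomputable def Phi (χ : ℝ → ℝ) (φ : Finset ι → ℝ) : (ι → ℝ) → ℝ :=
  fun h => ∑ S ∈ (Finset.univ : Finset (Finset ι)).erase ∅, φ S * ∏ i, eta χ S i (h i)

/-- The sign attached to membership. -/
def sg (a : ι) (S : Finset ι) : ℝ := if a ∈ S then -1 else 1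

section

variable {χ : ℝ → ℝ} (hχ : IsChi χ)
include hχ

lemma eta_contDiff (S : Finset ι) (i : ι) : ContDiff ℝ ∞ (eta χ S i) := by
  unfold eta
  split_ifs
  · exact hχ.smooth
  · exact contDiff_const.sub hχ.smooth

omit [Fintype ι] in
lemma eta_nonneg (S : Finset ι) (i : ι) (x : ℝ) : 0 ≤ eta χ S i x := by
  unfold eta
  split_ifs
  · exact hχ.nonneg x
  · have := hχ.le_one x
    linarith

omit [Fintype ι] in
lemma eta_le_one (S : Finset ι) (i : ι) (x : ℝ) : eta χ S i x ≤ 1 := by
  unfold eta
  split_ifs
  · exact hχ.le_one x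
  · have := hχ.nonneg x
    linarith

omit [Fintype ι] in
lemma eta_mixed (S : Finset ι) (i : ι) : Mixed (eta χ S i) := by
  unfold eta
  split_ifs
  · exact hχ.mixed
  · exact hχ.mixed'

lemma deriv_eta (S : Finset ι) (i : ι) :
    deriv (eta χ S i) = fun x => sg i S * (- deriv χ x) := by
  unfold eta sg
  split_ifs
  · ext x; simp
  · ext x
    rw [deriv_const_sub]
    simp

lemma theta_contDiff (a b : ι) (S : Finset ι) (i : ι) : ContDiff ℝ ∞ (theta χ a b S i) := by
  unfold theta
  by_cases hb : i = b
  · rw [hb, Function.update_self]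
    exact hχ.contDiff_deriv.neg
  · rw [Function.update_of_ne hb]
    by_cases ha : i = a
    · rw [ha, Function.update_self]
      exact hχ.contDiff_deriv.neg
    · rw [Function.update_of_ne ha]
      exact eta_contDiff hχ S i

lemma theta_nonneg (a b : ι) (S : Finset ι) (i : ι) (x : ℝ) : 0 ≤ theta χ a b S i x := by
  unfold theta
  by_cases hb : i = b
  · rw [hb, Function.update_self]
    have := hχ.deriv_nonpos x
    linarith
  · rw [Function.update_of_ne hb]
    by_cases ha : i = a
    · rw [ha, Function.update_self]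
      have := hχ.deriv_nonpos x
      linarith
    · rw [Function.update_of_ne ha]
      exact eta_nonneg hχ S i x

lemma theta_mixed (a b : ι) (S : Finset ι) (i : ι) (ha : i ≠ a) (hb : i ≠ b) :
    Mixed (theta χ a b S i) := by
  unfold theta
  rw [Function.update_of_ne hb, Function.update_of_ne ha]
  exact eta_mixed hχ S i

lemma good_theta (a b : ι) (S : Finset ι) : Good (fun h : ι → ℝ => ∏ i, theta χ a b S i (h i)) := by
  refine good_prod (theta_contDiff hχ a b S) ⟨b, 1, fun x hx => ?_⟩
  unfold theta
  rw [Function.update_self, hχ.deriv_zero x hx, neg_zero]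

lemma good_eta {S : Finset ι} (hS : S ≠ ∅) : Good (fun h : ι → ℝ => ∏ i, eta χ S i (h i)) := by
  obtain ⟨i, hi⟩ := Finset.nonempty_iff_ne_empty.2 hS
  refine good_prod (eta_contDiff hχ S) ⟨i, 0, fun x hx => ?_⟩
  unfold eta
  rw [if_pos hi]
  exact hχ.zero x hx

lemma good_Phi (φ : Finset ι → ℝ) : Good (Phi χ φ) :=
  Good.sum _ fun S hS => (good_eta hχ (Finset.mem_erase.1 hS).1).const_mul _

lemma pd_pd_eta {a b : ι} (hab : a ≠ b) (S : Finset ι) :
    pd (Pi.single b 1) (pd (Pi.single a 1) (fun h : ι → ℝ => ∏ i, eta χ S i (h i))) =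
      fun h => sg a S * sg b S * ∏ i, theta χ a b S i (h i) := by
  rw [pd_prod (eta_contDiff hχ S), pd_prod]
  · ext h
    rw [prod_split hab, prod_split hab]
    have e1 : (Function.update (Function.update (eta χ S) a (deriv (eta χ S a))) b
        (deriv (Function.update (eta χ S) a (deriv (eta χ S a)) b))) a =
        fun x => sg a S * (- deriv χ x) := by
      rw [Function.update_of_ne hab, Function.update_self, deriv_eta hχ]
    have e2 : (Function.update (Function.update (eta χ S) a (deriv (eta χ S a))) b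
        (deriv (Function.update (eta χ S) a (deriv (eta χ S a)) b))) b =
        fun x => sg b S * (- deriv χ x) := by
      rw [Function.update_self, Function.update_of_ne hab.symm, deriv_eta hχ]
    have e3 : ∀ k : {i : ι // i ≠ a ∧ i ≠ b},
        (Function.update (Function.update (eta χ S) a (deriv (eta χ S a))) b
        (deriv (Function.update (eta χ S) a (deriv (eta χ S a)) b))) k = eta χ S k := by
      intro k
      rw [Function.update_of_ne k.2.2, Function.update_of_ne k.2.1]
    have f1 : theta χ a b S a = fun x => - deriv χ x := by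
      unfold theta
      rw [Function.update_of_ne hab, Function.update_self]
    have f2 : theta χ a b S b = fun x => - deriv χ x := by
      unfold theta
      rw [Function.update_self]
    have f3 : ∀ k : {i : ι // i ≠ a ∧ i ≠ b}, theta χ a b S k = eta χ S k := by
      intro k
      unfold theta
      rw [Function.update_of_ne k.2.2, Function.update_of_ne k.2.1]
    simp only [e1, e2, e3, f1, f2, f3]
    ring
  · intro i
    by_cases ha : i = a
    · rw [ha, Function.update_self, deriv_eta hχ]
      exact contDiff_const.mul hχ.contDiff_deriv.neg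
    · rw [Function.update_of_ne ha]
      exact eta_contDiff hχ S i

omit hχ [Fintype ι] in
lemma theta_congr {a b : ι} {S T : Finset ι} (h : ∀ i, i ≠ a → i ≠ b → (i ∈ S ↔ i ∈ T)) :
    theta χ a b S = theta χ a b T := by
  ext i x
  unfold theta
  by_cases hb : i = b
  · rw [hb, Function.update_self, Function.update_self]
  · rw [Function.update_of_ne hb, Function.update_of_ne hb]
    by_cases ha : i = a
    · rw [ha, Function.update_self, Function.update_self]
    · rw [Function.update_of_ne ha, Function.update_of_ne ha]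
      unfold eta
      simp only [h i ha hb]

lemma pd_pd_Phi {a b : ι} (hab : a ≠ b) (φ : Finset ι → ℝ) (h0 : φ ∅ = 0) :
    pd (Pi.single b 1) (pd (Pi.single a 1) (Phi χ φ)) =
      fun h => ∑ t ∈ ((Finset.univ.erase a).erase b).powerset,
        (φ t - φ (insert b t) - φ (insert a t) + φ (insert a (insert b t))) *
          ∏ i, theta χ a b t i (h i) := by
  unfold Phi
  rw [pd_sum _ (fun S hS => good_eta hχ (Finset.mem_erase.1 hS).1),
    pd_sum _ (fun S hS => (good_eta hχ (Finset.mem_erase.1 hS).1).pd _)]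
  ext h
  simp_rw [pd_pd_eta hχ hab]
  rw [Finset.sum_erase _ (by rw [h0, zero_mul])]
  set K : Finset ι := (Finset.univ.erase a).erase b with hK
  have haK : a ∉ K := by simp [hK]
  have hbK : b ∉ K := by simp [hK]
  have hauniv : (Finset.univ : Finset ι) = insert a (insert b K) := by
    ext i
    simp only [hK, Finset.mem_univ, Finset.mem_insert, Finset.mem_erase, and_true, true_iff]
    tauto
  have huniv : (Finset.univ : Finset (Finset ι)) = (insert a (insert b K)).powerset := by
    rw [← hauniv]
    ext S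
    simp
  rw [huniv, Finset.sum_powerset_insert (by simp [haK, hab]), Finset.sum_powerset_insert hbK,
    Finset.sum_powerset_insert hbK, ← Finset.sum_add_distrib, ← Finset.sum_add_distrib,
    ← Finset.sum_add_distrib]
  refine Finset.sum_congr rfl fun t ht => ?_
  have hat : a ∉ t := fun h => haK (Finset.mem_powerset.1 ht h)
  have hbt : b ∉ t := fun h => hbK (Finset.mem_powerset.1 ht h)
  have t1 : theta χ a b (insert b t) = theta χ a b t :=
    theta_congr fun i ha hb => by simp [hb]
  have t2 : theta χ a b (insert a t) = theta χ a b t :=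
    theta_congr fun i ha hb => by simp [ha]
  have t3 : theta χ a b (insert a (insert b t)) = theta χ a b t :=
    theta_congr fun i ha hb => by simp [ha, hb]
  rw [t1, t2, t3]
  simp only [sg, Finset.mem_insert, hat, hbt, hab, hab.symm, or_false, false_or, if_true,
    if_false, true_or, or_true]
  ring

end

end KP
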