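import Pool.Agent.Helper738.KP.Deriv

/-!
Radial integrals and the measure decomposition.
-/

open MeasureTheory Real Set Filter Topology
open scoped ContDiff ENNReal NNReal RealInnerProductSpace

namespace KP

/-- A sequence of functions, each one the derivative of the previous one, vanishing for large
arguments. -/
structure Chain (θ : ℕ → ℝ → ℝ) : Prop where
  deriv : ∀ n s, HasDerivAt (θ n) (θ (n + 1) s) s
  vanish : ∀ n, ∃ S : ℝ, ∀ s, S ≤ s → θ n s = 0

lemma Chain.continuous {θ : ℕ → ℝ → ℝ} (h : Chain θ) (n : ℕ) : Continuous (θ n) :=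
  continuous_iff_continuousAt.2 fun s => (h.deriv n s).continuousAt

/-- Radial moments. -/
noncomputable def RR (M : ℕ) (θ : ℝ → ℝ) : ℝ := ∫ y in Ioi (0 : ℝ), y ^ M * θ (y ^ 2)

lemma integrableOn_radial {θ : ℝ → ℝ} (hθ : Continuous θ) (hS : ∃ S : ℝ, ∀ s, S ≤ s → θ s = 0)
    (M : ℕ) : IntegrableOn (fun y : ℝ => y ^ M * θ (y ^ 2)) (Ioi 0) := by
  have hc : Continuous fun y : ℝ => y ^ M * θ (y ^ 2) := by fun_prop
  refine (hc.integrable_of_hasCompactSupport ?_).integrableOn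
  obtain ⟨S, hS⟩ := hS
  refine HasCompactSupport.of_support_subset_isCompact
    (isCompact_closedBall (0 : ℝ) (|S| + 1)) ?_
  intro y hy
  rw [Metric.mem_closedBall, dist_zero_right]
  by_contra hlt
  apply hy
  have h1 : |S| + 1 ≤ |y| := (not_le.1 hlt).le
  have h2 : S ≤ y ^ 2 := by
    have h3 : |S| + 1 ≤ y ^ 2 := by
      rw [← sq_abs]
      have := abs_nonneg S
      nlinarith
    linarith [le_abs_self S]
  simp only
  rw [hS _ h2, mul_zero]

lemma tendsto_radial {θ : ℝ → ℝ} (hS : ∃ S : ℝ, ∀ s, S ≤ s → θ s = 0) (M : ℕ) :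
    Tendsto (fun y : ℝ => y ^ M * θ (y ^ 2)) atTop (𝓝 0) := by
  obtain ⟨S, hS⟩ := hS
  refine tendsto_const_nhds.congr' ?_
  filter_upwards [eventually_ge_atTop (|S| + 1)] with y hy
  have h2 : S ≤ y ^ 2 := by
    have h3 : |S| + 1 ≤ y ^ 2 := by
      have := abs_nonneg S
      nlinarith
    linarith [le_abs_self S]
  rw [hS _ h2, mul_zero]

lemma RR_rec {θ : ℕ → ℝ → ℝ} (h : Chain θ) (M n : ℕ) :
    RR (M + 2) (θ (n + 1)) = -((M + 1) / 2) * RR M (θ n) := by
  have hd : ∀ y ∈ Ici (0 : ℝ), HasDerivAt (fun y : ℝ => y ^ (M + 1) * θ n (y ^ 2))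
      ((M + 1) * (y ^ M * θ n (y ^ 2)) + 2 * (y ^ (M + 2) * θ (n + 1) (y ^ 2))) y := by
    intro y _
    have h1 : HasDerivAt (fun y : ℝ => y ^ (M + 1)) ((M + 1) * y ^ M) y := by
      simpa using hasDerivAt_pow (M + 1) y
    have h2 : HasDerivAt (fun y : ℝ => θ n (y ^ 2)) (θ (n + 1) (y ^ 2) * (2 * y)) y := by
      have h3 : HasDerivAt (fun y : ℝ => y ^ 2) (2 * y) y := by
        simpa using hasDerivAt_pow 2 y
      exact (h.deriv n (y ^ 2)).comp y h3
    refine (h1.mul h2).congr_deriv ?_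
    ring
  have hi1 := integrableOn_radial (h.continuous n) (h.vanish n) M
  have hi2 := integrableOn_radial (h.continuous (n + 1)) (h.vanish (n + 1)) (M + 2)
  have key := integral_Ioi_of_hasDerivAt_of_tendsto' (a := (0 : ℝ)) hd
    ((hi1.const_mul _).add (hi2.const_mul _)) (tendsto_radial (h.vanish n) (M + 1))
  rw [integral_add (hi1.const_mul _) (hi2.const_mul _), integral_const_mul,
    integral_const_mul] at key
  unfold RR
  simp at key
  linarith

lemma RR_base {θ : ℕ → ℝ → ℝ} (h : Chain θ) (n : ℕ) :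
    RR 1 (θ (n + 1)) = -(1 / 2) * θ n 0 := by
  have hd : ∀ y ∈ Ici (0 : ℝ), HasDerivAt (fun y : ℝ => y ^ 0 * θ n (y ^ 2))
      (2 * (y ^ 1 * θ (n + 1) (y ^ 2))) y := by
    intro y _
    have h2 : HasDerivAt (fun y : ℝ => θ n (y ^ 2)) (θ (n + 1) (y ^ 2) * (2 * y)) y := by
      have h3 : HasDerivAt (fun y : ℝ => y ^ 2) (2 * y) y := by
        simpa using hasDerivAt_pow 2 y
      exact (h.deriv n (y ^ 2)).comp y h3
    simp only [pow_zero, one_mul]
    refine h2.congr_deriv ?_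
    ring
  have hi2 := integrableOn_radial (h.continuous (n + 1)) (h.vanish (n + 1)) 1
  have key := integral_Ioi_of_hasDerivAt_of_tendsto' (a := (0 : ℝ)) hd
    (hi2.const_mul _) (tendsto_radial (h.vanish n) 0)
  rw [integral_const_mul] at key
  unfold RR
  simp at key ⊢
  linarith

lemma RR_odd (k : ℕ) : ∃ C : ℝ, 0 < C ∧ ∀ (θ : ℕ → ℝ → ℝ), Chain θ →
    RR (2 * k) (θ k) = (-1) ^ k * C * RR 0 (θ 0) := by
  induction k with
  | zero => exact ⟨1, one_pos, fun θ _ => by simp⟩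
  | succ k ih =>
    obtain ⟨C, hC, h⟩ := ih
    refine ⟨((2 * k : ℕ) + 1) / 2 * C, by positivity, fun θ hθ => ?_⟩
    have : 2 * (k + 1) = 2 * k + 2 := by ring
    rw [this, RR_rec hθ, h θ hθ, pow_succ]
    ring

lemma RR_even (j : ℕ) : ∃ C : ℝ, 0 < C ∧ ∀ (θ : ℕ → ℝ → ℝ), Chain θ →
    RR (2 * j + 1) (θ (j + 1)) = (-1) ^ (j + 1) * C * θ 0 0 := by
  induction j with
  | zero => exact ⟨1 / 2, by norm_num, fun θ hθ => by
      have := RR_base hθ 0
      simp only [zero_add] at this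
      simp [this]⟩
  | succ j ih =>
    obtain ⟨C, hC, h⟩ := ih
    refine ⟨((2 * j + 1 : ℕ) + 1) / 2 * C, by positivity, fun θ hθ => ?_⟩
    have : 2 * (j + 1) + 1 = 2 * j + 1 + 2 := by ring
    rw [this, RR_rec hθ, h θ hθ, pow_succ (-1 : ℝ) (j + 1)]
    ring

variable {F : Type*} [NormedAddCommGroup F] [InnerProductSpace ℝ F] [FiniteDimensional ℝ F]
  [MeasurableSpace F] [BorelSpace F]

lemma radial_odd (k : ℕ) (hF : Module.finrank ℝ F = 2 * k + 1) : ∃ C : ℝ, 0 < C ∧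
    ∀ (θ : ℕ → ℝ → ℝ), Chain θ →
    ∫ z : F, θ k (‖z‖ ^ 2) = (-1) ^ k * (C * ∫ y in Ioi (0 : ℝ), θ 0 (y ^ 2)) := by
  obtain ⟨C, hC, h⟩ := RR_odd k
  have : Nontrivial F := Module.nontrivial_of_finrank_pos (R := ℝ) (by omega)
  have hB : 0 < (volume : Measure F).real (Metric.ball 0 1) :=
    ENNReal.toReal_pos (Metric.measure_ball_pos _ _ one_pos).ne' measure_ball_lt_top.ne
  refine ⟨(Module.finrank ℝ F : ℝ) * ((volume : Measure F).real (Metric.ball 0 1)) * C, ?_, ?_⟩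
  · rw [hF]; positivity
  · intro θ hθ
    have h1 := integral_fun_norm_addHaar (volume : Measure F) (fun y : ℝ => θ k (y ^ 2))
    rw [h1, hF]
    have h2 := h θ hθ
    unfold RR at h2
    simp only [Nat.add_sub_cancel, smul_eq_mul, nsmul_eq_mul]
    rw [h2]
    simp
    ring

lemma radial_even (j : ℕ) (hF : Module.finrank ℝ F = 2 * j + 2) : ∃ C : ℝ, 0 < C ∧
    ∀ (θ : ℕ → ℝ → ℝ), Chain θ →
    ∫ z : F, θ (j + 1) (‖z‖ ^ 2) = (-1) ^ (j + 1) * (C * θ 0 0) := by
  obtain ⟨C, hC, h⟩ := RR_even j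
  have : Nontrivial F := Module.nontrivial_of_finrank_pos (R := ℝ) (by omega)
  have hB : 0 < (volume : Measure F).real (Metric.ball 0 1) :=
    ENNReal.toReal_pos (Metric.measure_ball_pos _ _ one_pos).ne' measure_ball_lt_top.ne
  refine ⟨(Module.finrank ℝ F : ℝ) * ((volume : Measure F).real (Metric.ball 0 1)) * C, ?_, ?_⟩
  · rw [hF]; positivity
  · intro θ hθ
    have h1 := integral_fun_norm_addHaar (volume : Measure F) (fun y : ℝ => θ (j + 1) (y ^ 2))
    rw [h1, hF]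
    have h2 := h θ hθ
    unfold RR at h2
    have h3 : 2 * j + 2 - 1 = 2 * j + 1 := by omega
    simp only [h3, smul_eq_mul, nsmul_eq_mul]
    rw [h2]
    ring

/-- The chain attached to a good function. -/
lemma chain_of_good {ι : Type*} [Fintype ι] [Nonempty ι] {Φ : (ι → ℝ) → ℝ} (hΦ : Good Φ)
    (h : ι → ℝ) : Chain (fun n s => (DD^[n] Φ) (fun i => h i + s)) := by
  refine ⟨fun n s => ?_, fun n => ?_⟩
  · have := hasDerivAt_shift (hΦ.iter n) h s
    rwa [← Function.iterate_succ_apply' DD n Φ] at this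
  · obtain ⟨C, hC⟩ := (hΦ.iter n).vanish
    refine ⟨∑ i, |C - h i|, fun s hs => hC _ fun i => ?_⟩
    have := Finset.single_le_sum (f := fun i => |C - h i|) (fun i _ => abs_nonneg _)
        (Finset.mem_univ i)
    have h2 := le_abs_self (C - h i)
    linarith

end KP
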