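import Pool.Agent.Helper738.KP.Radial

/-!
Measure decomposition along a subspace and dimension reduction.
-/

open MeasureTheory Real Set Filter Topology
open scoped ContDiff ENNReal NNReal RealInnerProductSpace

namespace KP

section decomp

variable {W : Type*} [NormedAddCommGroup W] [NormedSpace ℝ W] [FiniteDimensional ℝ W]
  [MeasurableSpace W] [BorelSpace W]
variable {V : Type*} [NormedAddCommGroup V] [InnerProductSpace ℝ V] [FiniteDimensional ℝ V]
  [MeasurableSpace V] [BorelSpace V]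

lemma exists_decomp (μ : Measure W) [μ.IsAddHaarMeasure] (A : W →ₗ[ℝ] V)
    (hA : Function.Injective A) :
    ∃ C : ℝ, 0 < C ∧ ∀ f : V → ℝ, Integrable f →
      ∫ X, f X = C * ∫ w : W, (∫ z : (LinearMap.range A)ᗮ, f (A w + (z : V))) ∂μ := by
  set K : Submodule ℝ V := LinearMap.range A with hK
  let Λ : (W × Kᗮ) ≃ₗ[ℝ] V :=
    ((LinearEquiv.ofInjective A hA).prodCongr (LinearEquiv.refl ℝ Kᗮ)).trans
      (Submodule.prodEquivOfIsCompl K Kᗮ (Submodule.isCompl_orthogonal K))
  have hΛ : ∀ w : W, ∀ z : Kᗮ, Λ (w, z) = A w + (z : V) := by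
    intro w z
    simp [Λ]
  have : ProperSpace W := FiniteDimensional.proper_real W
  have hΛc : Continuous Λ := LinearMap.continuous_of_finiteDimensional Λ.toLinearMap
  let ν : Measure V := (μ.prod (volume : Measure Kᗮ)).map Λ
  have : ν.IsAddHaarMeasure := Λ.toContinuousLinearEquiv.isAddHaarMeasure_map _
  let c : ℝ≥0 := Measure.addHaarScalarFactor (volume : Measure V) ν
  have hc : 0 < c := Measure.addHaarScalarFactor_pos_of_isAddHaarMeasure _ _
  have hvol : (volume : Measure V) = c • ν := Measure.isAddLeftInvariant_eq_smul _ _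
  refine ⟨c, by exact_mod_cast hc, fun f hf => ?_⟩
  have hemb : MeasurableEmbedding Λ :=
    Λ.toContinuousLinearEquiv.toHomeomorph.measurableEmbedding
  have hfν : Integrable f ν := by
    rw [hvol] at hf
    have hc' : (c : ℝ≥0∞) ≠ 0 := by simpa using hc.ne'
    exact (integrable_smul_measure hc' ENNReal.coe_ne_top).1 hf
  have hfΛ : Integrable (fun p : W × Kᗮ => f (Λ p)) (μ.prod (volume : Measure Kᗮ)) :=
    (hemb.integrable_map_iff).1 hfν
  rw [hvol, integral_smul_nnreal_measure, hemb.integral_map, integral_prod _ hfΛ]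
  simp only [hΛ]
  rfl

end decomp

section red

variable {ι : Type*} [Fintype ι] [Nonempty ι]
variable {V : Type*} [NormedAddCommGroup V] [InnerProductSpace ℝ V] [FiniteDimensional ℝ V]
  [MeasurableSpace V] [BorelSpace V]
variable {E : Type*} [NormedAddCommGroup E] [InnerProductSpace ℝ E] [FiniteDimensional ℝ E]
  [MeasurableSpace E] [BorelSpace E]
variable {W : Type*} [NormedAddCommGroup W] [NormedSpace ℝ W] [FiniteDimensional ℝ W]
  [MeasurableSpace W] [BorelSpace W]

omit [FiniteDimensional ℝ V] [MeasurableSpace V] [BorelSpace V] in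
lemma norm_sq_add_orth (K : Submodule ℝ V) (x : V) (hx : x ∈ K) (z : Kᗮ) :
    ‖x + (z : V)‖ ^ 2 = ‖x‖ ^ 2 + ‖z‖ ^ 2 := by
  have h : ⟪x, (z : V)⟫ = 0 := (Submodule.mem_orthogonal K (z : V)).1 z.2 x hx
  have := norm_add_sq_eq_norm_sq_add_norm_sq_of_inner_eq_zero x (z : V) h
  rw [sq, sq, sq, this]
  rfl

omit [Nonempty ι] [Fintype ι] [FiniteDimensional ℝ V] [MeasurableSpace V] [BorelSpace V] in
lemma hh_orth (K : Submodule ℝ V) (r : ι → V) (c : ι → ℝ) (o x : V) (z : Kᗮ)
    (hr : ∀ i, r i - o ∈ K) (hx : x ∈ K) :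
    hh r c (x + (z : V) + o) = fun i => hh r c (x + o) i + ‖z‖ ^ 2 := by
  ext i
  unfold hh
  have h1 : x + (z : V) + o - r i = (x - (r i - o)) + (z : V) := by module
  have h2 : x + o - r i = x - (r i - o) := by module
  rw [h1, h2, norm_sq_add_orth K _ (K.sub_mem hx (hr i))]
  ring

lemma reduction_odd (μ : Measure W) [μ.IsAddHaarMeasure] (A : W →ₗ[ℝ] V)
    (hA : Function.Injective A) (k : ℕ)
    (hfin : Module.finrank ℝ V = Module.finrank ℝ W + 2 * k + 1)
    (r : ι → V) (o : V) (hr : ∀ i, r i - o ∈ LinearMap.range A) :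
    ∃ C : ℝ, 0 < C ∧ ∀ (Φ : (ι → ℝ) → ℝ), Good Φ → ∀ c : ι → ℝ,
      ∫ X : V, (DD^[k] Φ) (hh r c X) =
        (-1) ^ k * (C * ∫ w : W, (∫ y in Ioi (0 : ℝ), Φ (fun i => hh r c (A w + o) i + y ^ 2)) ∂μ) := by
  obtain ⟨C₁, hC₁, h₁⟩ := exists_decomp μ A hA
  have hfin' : Module.finrank ℝ (LinearMap.range A)ᗮ = 2 * k + 1 := by
    have h2 := Submodule.finrank_add_finrank_orthogonal (LinearMap.range A)
    have h3 := LinearMap.finrank_range_of_inj hA
    omega
  obtain ⟨C₂, hC₂, h₂⟩ := radial_odd k hfin'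
  refine ⟨C₁ * C₂, by positivity, fun Φ hΦ c => ?_⟩
  have hint := (hΦ.iter k).integrable r c
  rw [← integral_add_right_eq_self _ o, h₁ _ (hint.comp_add_right o)]
  have h3 : ∀ w : W, ∫ z : (LinearMap.range A)ᗮ, (DD^[k] Φ) (hh r c (A w + (z : V) + o)) =
      (-1) ^ k * (C₂ * ∫ y in Ioi (0 : ℝ), Φ (fun i => hh r c (A w + o) i + y ^ 2)) := by
    intro w
    have h4 := h₂ _ (chain_of_good hΦ (hh r c (A w + o)))
    simp only [Function.iterate_zero, id] at h4
    rw [← h4]
    refine integral_congr_ae (Eventually.of_forall fun z => ?_)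
    simp only
    rw [hh_orth _ r c o (A w) z hr ⟨w, rfl⟩]
  simp_rw [h3]
  rw [integral_const_mul, integral_const_mul]
  ring

lemma reduction_even (L : E →ₗᵢ[ℝ] V) (j : ℕ)
    (hfin : Module.finrank ℝ V = Module.finrank ℝ E + 2 * j + 2) :
    ∃ C : ℝ, 0 < C ∧ ∀ (Φ : (ι → ℝ) → ℝ), Good Φ → ∀ (p : ι → E) (c : ι → ℝ),
      ∫ X : V, (DD^[j + 1] Φ) (hh (fun i => L (p i)) c X) =
        (-1) ^ (j + 1) * (C * ∫ x : E, Φ (hh p c x)) := by
  obtain ⟨C₁, hC₁, h₁⟩ := exists_decomp (volume : Measure E) L.toLinearMap L.injective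
  have hfin' : Module.finrank ℝ (LinearMap.range L.toLinearMap)ᗮ = 2 * j + 2 := by
    have h2 := Submodule.finrank_add_finrank_orthogonal (LinearMap.range L.toLinearMap)
    have h3 := LinearMap.finrank_range_of_inj (f := L.toLinearMap) L.injective
    omega
  obtain ⟨C₂, hC₂, h₂⟩ := radial_even j hfin'
  refine ⟨C₁ * C₂, by positivity, fun Φ hΦ p c => ?_⟩
  have hint := (hΦ.iter (j + 1)).integrable (fun i => L (p i)) c
  rw [h₁ _ hint]
  have h3 : ∀ x : E, ∫ z : (LinearMap.range L.toLinearMap)ᗮ,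
      (DD^[j + 1] Φ) (hh (fun i => L (p i)) c (L.toLinearMap x + (z : V))) =
      (-1) ^ (j + 1) * (C₂ * Φ (hh p c x)) := by
    intro x
    have h4 := h₂ _ (chain_of_good hΦ (hh p c x))
    simp only [Function.iterate_zero, id, add_zero] at h4
    rw [← h4]
    refine integral_congr_ae (Eventually.of_forall fun z => ?_)
    have h5 := hh_orth (LinearMap.range L.toLinearMap) (fun i => L (p i)) c 0 (L.toLinearMap x) z
      (fun i => by rw [sub_zero]; exact ⟨p i, rfl⟩) ⟨x, rfl⟩
    simp only [add_zero] at h5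
    simp only
    rw [h5]
    have h6 : hh (fun i => L (p i)) c (L.toLinearMap x) = hh p c x := by
      ext i
      unfold hh
      have : L.toLinearMap x - L (p i) = L (x - p i) := by
        rw [map_sub]; rfl
      rw [this, L.norm_map]
    rw [h6]
  simp_rw [h3]
  rw [integral_const_mul, integral_const_mul]
  ring

end red

end KP
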