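import Pool.Agent.Helper738.KP.Mix
import Pool.Agent.Helper738.KP.Reduction

/-!
The sign lemma.
-/

open MeasureTheory Real Set Filter Topology
open scoped ENNReal NNReal RealInnerProductSpace

namespace KP

/-- `η` is a mixture of indicator functions of translates of a fixed cone of the line. -/
def Mixed (η : ℝ → ℝ) : Prop :=
  ∃ (μ : Measure ℝ) (S : Set ℝ), SigmaFinite μ ∧ MeasurableSet S ∧
    (∀ ρ : ℝ, 0 < ρ → ∀ x : ℝ, ρ * x ∈ S ↔ x ∈ S) ∧
    ∀ x, ENNReal.ofReal (η x) = μ {σ | x - σ ∈ S}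

section lint

variable {V : Type*} [NormedAddCommGroup V] [InnerProductSpace ℝ V]
variable {κ : Type*} [Fintype κ]

lemma mixed_mono (hκ : 2 ≤ Fintype.card κ) (B : (κ → ℝ) →ₗ[ℝ] V) (hB : Function.Injective B)
    (e : V) (η : κ → ℝ → ℝ) (hη : ∀ k, Mixed (η k)) (d : κ → ℝ) :
    Monotone (fun T : ℝ => ∫⁻ u : κ → ℝ, (∏ k, ENNReal.ofReal (η k (u k + d k))) *
      ww (T - ‖e + B u‖ ^ 2)) := by
  choose μs S h1 h2 h3 h4 using hη
  have := mix_mono hκ B hB e μs S h2 h3 d
  simp_rw [h4]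
  exact this

lemma sign_lintegral (hκ : 2 ≤ Fintype.card κ) (A : (ℝ × (κ → ℝ)) →ₗ[ℝ] V)
    (hA : Function.Injective A) (ga gb : ℝ → ℝ≥0∞) (hga : Measurable ga) (hgb : Measurable gb)
    (η : κ → ℝ → ℝ) (hη : ∀ k, Mixed (η k)) (hηm : ∀ k, Measurable (η k))
    (ca db : ℝ) (d : κ → ℝ) :
    Antitone (fun s : ℝ => ∫⁻ w : ℝ × (κ → ℝ), ∫⁻ y in Ioi (0 : ℝ),
      ga ((‖A w‖ ^ 2 - ca + s) + y ^ 2) * (gb (w.1 + db + ((‖A w‖ ^ 2 - ca + s) + y ^ 2)) *
        ∏ k, ENNReal.ofReal (η k (w.2 k + d k + ((‖A w‖ ^ 2 - ca + s) + y ^ 2))))) := by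
  have hAc : Continuous A := LinearMap.continuous_of_finiteDimensional A
  set e : ℝ → V := fun v => A (v, 0) with he
  set B : (κ → ℝ) →ₗ[ℝ] V := A ∘ₗ LinearMap.inr ℝ ℝ (κ → ℝ) with hB
  have hBinj : Function.Injective B := by
    intro x y hxy
    have := hA hxy
    simpa using this
  have hAsplit : ∀ (v : ℝ) (u : κ → ℝ), A (v, u) = e v + B u := by
    intro v u
    simp only [he, hB, LinearMap.comp_apply, LinearMap.inr_apply]
    rw [← map_add]
    simp
  have key : ∀ s : ℝ, (∫⁻ w : ℝ × (κ → ℝ), ∫⁻ y in Ioi (0 : ℝ),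
      ga ((‖A w‖ ^ 2 - ca + s) + y ^ 2) * (gb (w.1 + db + ((‖A w‖ ^ 2 - ca + s) + y ^ 2)) *
        ∏ k, ENNReal.ofReal (η k (w.2 k + d k + ((‖A w‖ ^ 2 - ca + s) + y ^ 2))))) =
      ∫⁻ α : ℝ, ga α * ∫⁻ v : ℝ, gb (v + db + α) * ∫⁻ u : κ → ℝ,
        (∏ k, ENNReal.ofReal (η k (u k + (d k + α)))) *
        ww ((α + ca - s) - ‖e v + B u‖ ^ 2) := by
    intro s
    have e1 : ∀ w : ℝ × (κ → ℝ), (∫⁻ y in Ioi (0 : ℝ),
        ga ((‖A w‖ ^ 2 - ca + s) + y ^ 2) * (gb (w.1 + db + ((‖A w‖ ^ 2 - ca + s) + y ^ 2)) *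
        ∏ k, ENNReal.ofReal (η k (w.2 k + d k + ((‖A w‖ ^ 2 - ca + s) + y ^ 2))))) =
        ∫⁻ α : ℝ, (ga α * (gb (w.1 + db + α) *
        ∏ k, ENNReal.ofReal (η k (w.2 k + d k + α)))) * ww (α - (‖A w‖ ^ 2 - ca + s)) := by
      intro w
      exact lintegral_sub_sq (‖A w‖ ^ 2 - ca + s) (fun α => ga α * (gb (w.1 + db + α) *
        ∏ k, ENNReal.ofReal (η k (w.2 k + d k + α))))
    simp_rw [e1]
    have hm : Measurable fun p : (ℝ × (κ → ℝ)) × ℝ => (ga p.2 * (gb (p.1.1 + db + p.2) *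
        ∏ k, ENNReal.ofReal (η k (p.1.2 k + d k + p.2)))) *
        ww (p.2 - (‖A p.1‖ ^ 2 - ca + s)) := by
      refine Measurable.mul (Measurable.mul (hga.comp measurable_snd) (Measurable.mul
        (hgb.comp (by fun_prop)) ?_)) ?_
      · exact Finset.measurable_prod _ fun k _ => ENNReal.measurable_ofReal.comp
          ((hηm k).comp (by fun_prop))
      · exact measurable_ww.comp (Continuous.measurable (by fun_prop))
    rw [lintegral_lintegral_swap hm.aemeasurable]
    refine lintegral_congr fun α => ?_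
    have hm2 : Measurable fun w : ℝ × (κ → ℝ) => (ga α * (gb (w.1 + db + α) *
        ∏ k, ENNReal.ofReal (η k (w.2 k + d k + α)))) *
        ww (α - (‖A w‖ ^ 2 - ca + s)) := hm.comp (measurable_id.prodMk measurable_const)
    rw [Measure.volume_eq_prod, lintegral_prod _ hm2.aemeasurable]
    have hmu : ∀ v : ℝ, Measurable fun u : κ → ℝ =>
        (∏ k, ENNReal.ofReal (η k (u k + (d k + α)))) *
        ww ((α + ca - s) - ‖e v + B u‖ ^ 2) := by
      intro v
      have hBc : Continuous B := LinearMap.continuous_of_finiteDimensional B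
      refine Measurable.mul ?_ ?_
      · exact Finset.measurable_prod _ fun k _ => ENNReal.measurable_ofReal.comp
          ((hηm k).comp (by fun_prop))
      · exact measurable_ww.comp (Continuous.measurable (by fun_prop))
    have hmv : Measurable fun v : ℝ => gb (v + db + α) * ∫⁻ u : κ → ℝ,
        (∏ k, ENNReal.ofReal (η k (u k + (d k + α)))) *
        ww ((α + ca - s) - ‖e v + B u‖ ^ 2) := by
      refine Measurable.mul (hgb.comp (by fun_prop)) ?_
      refine Measurable.lintegral_prod_right' (f := fun p : ℝ × (κ → ℝ) =>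
        (∏ k, ENNReal.ofReal (η k (p.2 k + (d k + α)))) *
        ww ((α + ca - s) - ‖e p.1 + B p.2‖ ^ 2)) ?_
      have hBc : Continuous B := LinearMap.continuous_of_finiteDimensional B
      have hec : Continuous e := by
        simp only [he]
        fun_prop
      refine Measurable.mul ?_ ?_
      · exact Finset.measurable_prod _ fun k _ => ENNReal.measurable_ofReal.comp
          ((hηm k).comp (by fun_prop))
      · exact measurable_ww.comp (Continuous.measurable (by fun_prop))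
    rw [← lintegral_const_mul _ hmv]
    refine lintegral_congr fun v => ?_
    rw [← lintegral_const_mul _ (hmu v), ← lintegral_const_mul _ ((hmu v).const_mul _)]
    refine lintegral_congr fun u => ?_
    have e2 : α - (‖A (v, u)‖ ^ 2 - ca + s) = (α + ca - s) - ‖e v + B u‖ ^ 2 := by
      rw [hAsplit]; ring
    have e3 : ∀ k, u k + d k + α = u k + (d k + α) := fun k => by ring
    simp only [e2, e3]
    ring
  intro s₁ s₂ h
  simp only
  rw [key, key]
  refine lintegral_mono fun α => mul_le_mul' le_rfl (lintegral_mono fun v =>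
    mul_le_mul' le_rfl ?_)
  exact mixed_mono hκ B hBinj (e v) η hη (fun k => d k + α) (by linarith)

end lint

end KP
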