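import Pool.Agent.Helper738.KP.Sign

/-!
The sign lemma for Bochner integrals.
-/

open MeasureTheory Real Set Filter Topology
open scoped ENNReal NNReal RealInnerProductSpace

namespace KP

set_option maxHeartbeats 400000

variable {ι : Type*} [Fintype ι] [DecidableEq ι]

lemma card_ne_ne {a b : ι} (hab : a ≠ b) :
    Fintype.card {i : ι // i ≠ a ∧ i ≠ b} + 2 = Fintype.card ι := by
  have h1 : Fintype.card {i : ι // i ≠ a ∧ i ≠ b} = ((Finset.univ.erase a).erase b).card := by
    rw [Fintype.card_subtype]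
    congr 1
    ext i
    simp [and_comm]
  rw [h1, Finset.card_erase_of_mem (by simp [hab.symm]), Finset.card_erase_of_mem (by simp),
    Finset.card_univ]
  have : 2 ≤ Fintype.card ι := by
    have : Finset.card {a, b} ≤ Fintype.card ι := Finset.card_le_univ _
    rwa [Finset.card_pair hab] at this
  omega

lemma prod_split {M : Type*} [CommMonoid M] {a b : ι} (hab : a ≠ b) (f : ι → M) :
    ∏ i, f i = f a * (f b * ∏ k : {i : ι // i ≠ a ∧ i ≠ b}, f k) := by
  rw [← Finset.mul_prod_erase Finset.univ f (Finset.mem_univ a),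
    ← Finset.mul_prod_erase (Finset.univ.erase a) f (a := b) (by simp [hab.symm])]
  congr 2
  rw [Finset.prod_subtype (p := fun i => i ≠ a ∧ i ≠ b)]
  intro x
  simp [and_comm]

section param

variable {V : Type*} [NormedAddCommGroup V] [InnerProductSpace ℝ V]

lemma exists_param (r : ι → V) {a b : ι} (hab : a ≠ b)
    (hr : LinearIndependent ℝ (fun i : {i : ι // i ≠ a} => r i - r a)) :
    ∃ A : (ℝ × ({i : ι // i ≠ a ∧ i ≠ b} → ℝ)) →ₗ[ℝ] V, Function.Injective A ∧
      (∀ i, r i - r a ∈ LinearMap.range A) ∧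
      (∀ w, -2 * ⟪A w, r b - r a⟫ = w.1) ∧
      (∀ w (k : {i : ι // i ≠ a ∧ i ≠ b}), -2 * ⟪A w, r (k : ι) - r a⟫ = w.2 k) := by
  set K : Submodule ℝ V := Submodule.span ℝ (Set.range (fun i : {i : ι // i ≠ a} => r i - r a))
    with hK
  have hmem : ∀ i, r i - r a ∈ K := by
    intro i
    by_cases h : i = a
    · rw [h, sub_self]; exact K.zero_mem
    · exact Submodule.subset_span ⟨⟨i, h⟩, rfl⟩
  have hfK : Module.finrank ℝ K + 1 = Fintype.card ι := by
    rw [hK, finrank_span_eq_card hr]
    have h1 : Fintype.card {i : ι // i ≠ a} = (Finset.univ.erase a).card := by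
      rw [Fintype.card_subtype]
      congr 1
      ext i
      simp
    rw [h1, Finset.card_erase_of_mem (by simp), Finset.card_univ]
    have : 0 < Fintype.card ι := Fintype.card_pos_iff.2 ⟨a⟩
    omega
  have hKfd : FiniteDimensional ℝ K := by
    rw [hK]
    exact FiniteDimensional.span_of_finite ℝ (Set.finite_range _)
  let G : K →ₗ[ℝ] (ℝ × ({i : ι // i ≠ a ∧ i ≠ b} → ℝ)) :=
    (LinearMap.prod ((-2 : ℝ) • innerₛₗ ℝ (r b - r a))
      (LinearMap.pi fun k : {i : ι // i ≠ a ∧ i ≠ b} => (-2 : ℝ) • innerₛₗ ℝ (r (k : ι) - r a)))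
      ∘ₗ K.subtype
  have hG1 : ∀ x : K, (G x).1 = -2 * ⟪(x : V), r b - r a⟫ := by
    intro x
    simp [G, real_inner_comm]
    rw [inner_sub_right]
  have hG2 : ∀ (x : K) (k : {i : ι // i ≠ a ∧ i ≠ b}),
      (G x).2 k = -2 * ⟪(x : V), r (k : ι) - r a⟫ := by
    intro x k
    simp [G, real_inner_comm]
    rw [inner_sub_right]
  have hGinj : Function.Injective G := by
    rw [injective_iff_map_eq_zero]
    intro x hx
    have h0 : ∀ i, ⟪(x : V), r i - r a⟫ = 0 := by
      intro i
      by_cases hia : i = a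
      · rw [hia, sub_self, inner_zero_right]
      · by_cases hib : i = b
        · have := hG1 x
          rw [hx] at this
          rw [hib]
          simpa using this.symm
        · have := hG2 x ⟨i, hia, hib⟩
          rw [hx] at this
          simpa using this.symm
    have h1 : (x : V) ∈ Kᗮ := by
      rw [Submodule.mem_orthogonal']
      intro u hu
      rw [hK] at hu
      induction hu using Submodule.span_induction with
      | mem y hy =>
        obtain ⟨i, rfl⟩ := hy
        exact h0 i
      | zero => exact inner_zero_right _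
      | add y z _ _ hy hz => rw [inner_add_right, hy, hz, add_zero]
      | smul t y _ hy => rw [inner_smul_right, hy, mul_zero]
    have h2 : ⟪(x : V), (x : V)⟫ = 0 := (Submodule.mem_orthogonal K _).1 h1 _ x.2
    exact Subtype.ext (inner_self_eq_zero.1 h2)
  have hfin : Module.finrank ℝ K = Module.finrank ℝ (ℝ × ({i : ι // i ≠ a ∧ i ≠ b} → ℝ)) := by
    have := card_ne_ne hab
    simp only [Module.finrank_prod, Module.finrank_self, Module.finrank_fintype_fun_eq_card]
    omega
  let Λ := G.linearEquivOfInjective hGinj hfin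
  have hΛ : ∀ w, G (Λ.symm w) = w := fun w => Λ.apply_symm_apply w
  refine ⟨K.subtype ∘ₗ Λ.symm.toLinearMap, ?_, ?_, ?_, ?_⟩
  · exact Subtype.val_injective.comp Λ.symm.injective
  · intro i
    refine ⟨Λ ⟨r i - r a, hmem i⟩, ?_⟩
    simp
  · intro w
    have := hG1 (Λ.symm w)
    rw [hΛ] at this
    exact this.symm
  · intro w k
    have := hG2 (Λ.symm w) k
    rw [hΛ] at this
    exact this.symm

end param

section sign

variable {V : Type*} [NormedAddCommGroup V] [InnerProductSpace ℝ V] [FiniteDimensional ℝ V]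
  [MeasurableSpace V] [BorelSpace V]

omit [DecidableEq ι] [MeasurableSpace V] [BorelSpace V] in
/-- Integrability on the half space. -/
lemma integrable_half {W : Type*} [NormedAddCommGroup W] [NormedSpace ℝ W]
    [FiniteDimensional ℝ W] [MeasurableSpace W] [BorelSpace W] [Nonempty ι]
    (μ : Measure W) [μ.IsAddHaarMeasure] (A : W →ₗ[ℝ] V) (hA : Function.Injective A)
    {Φ : (ι → ℝ) → ℝ} (hΦ : Good Φ) (r : ι → V) (c : ι → ℝ) (o : V) :
    Integrable (fun p : W × ℝ => Φ (fun i => hh r c (A p.1 + o) i + p.2 ^ 2))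
      (μ.prod (volume.restrict (Ioi (0 : ℝ)))) := by
  have : ProperSpace W := FiniteDimensional.proper_real W
  have hAc : Continuous A := LinearMap.continuous_of_finiteDimensional A
  have hcont : Continuous fun p : V × ℝ => Φ (fun i => hh r c p.1 i + p.2 ^ 2) := by
    refine hΦ.continuous.comp (continuous_pi fun i => ?_)
    unfold hh
    fun_prop
  have hcs : HasCompactSupport fun p : V × ℝ => Φ (fun i => hh r c p.1 i + p.2 ^ 2) := by
    obtain ⟨C, hC⟩ := hΦ.vanish
    obtain ⟨M, hM⟩ : ∃ M, ∀ i, ‖r i‖ ≤ M ∧ c i ≤ M := by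
      refine ⟨∑ i, (‖r i‖ + |c i|), fun i => ⟨?_, ?_⟩⟩
      · have := Finset.single_le_sum (f := fun i => ‖r i‖ + |c i|) (fun i _ => by positivity)
          (Finset.mem_univ i)
        have h2 := abs_nonneg (c i)
        linarith
      · have := Finset.single_le_sum (f := fun i => ‖r i‖ + |c i|) (fun i _ => by positivity)
          (Finset.mem_univ i)
        have h2 := norm_nonneg (r i)
        have h3 := le_abs_self (c i)
        linarith
    refine HasCompactSupport.of_support_subset_isCompact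
      ((isCompact_closedBall (0 : V) (2 * |M| + |C| + 1)).prod
        (isCompact_closedBall (0 : ℝ) (2 * |M| + |C| + 1))) ?_
    intro p hp
    rw [Set.mem_prod, Metric.mem_closedBall, Metric.mem_closedBall, dist_zero_right,
      dist_zero_right]
    by_contra hlt
    apply hp
    rw [not_and_or, not_le, not_le] at hlt
    refine hC _ fun i => ?_
    rcases hlt with h | h
    · have h1 := hh_large C M r c p.1 (fun i => (hM i).1) (fun i => (hM i).2) h.le i
      have h2 := sq_nonneg p.2
      linarith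
    · have h1 : 2 * |M| + |C| + 1 ≤ p.2 ^ 2 := by
        rw [Real.norm_eq_abs] at h
        rw [← sq_abs]
        have := abs_nonneg M
        have := abs_nonneg C
        nlinarith
      have h2 : -M ≤ hh r c p.1 i := by
        unfold hh
        have := (hM i).2
        have := sq_nonneg ‖p.1 - r i‖
        linarith
      have h3 := le_abs_self M
      have h4 := le_abs_self C
      have h5 := abs_nonneg M
      linarith
  have hemb : IsClosedEmbedding (fun p : W × ℝ => (A p.1 + o, p.2)) := by
    have h1 : IsClosedEmbedding (fun w : W => A w + o) :=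
      (Homeomorph.addRight o).isClosedEmbedding.comp
        (A.isClosedEmbedding_of_injective (LinearMap.ker_eq_bot.2 hA))
    exact h1.prodMap IsClosedEmbedding.id
  have hint : Integrable (fun p : W × ℝ => Φ (fun i => hh r c (A p.1 + o) i + p.2 ^ 2))
      (μ.prod volume) := by
    refine Continuous.integrable_of_hasCompactSupport ?_ ?_
    · have h3 := hcont.comp hemb.continuous
      simp only [Function.comp_def] at h3
      exact h3
    · have h3 := hcs.comp_isClosedEmbedding hemb
      simp only [Function.comp_def] at h3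
      exact h3
  have h2 : μ.prod (volume.restrict (Ioi (0 : ℝ))) =
      (μ.prod volume).restrict (univ ×ˢ Ioi (0 : ℝ)) := by
    rw [← Measure.prod_restrict, Measure.restrict_univ]
  rw [h2]
  exact hint.integrableOn

theorem sign_lemma (k : ℕ) (hfin : Module.finrank ℝ V = Fintype.card ι + 2 * k)
    (hcard : 4 ≤ Fintype.card ι) (r : ι → V) (c : ι → ℝ) {a b : ι} (hab : a ≠ b)
    (hr : LinearIndependent ℝ (fun i : {i : ι // i ≠ a} => r i - r a))
    (η : ι → ℝ → ℝ) (hηc : ∀ i, Continuous (η i)) (hη0 : ∀ i x, 0 ≤ η i x)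
    (hηM : ∀ i, i ≠ a → i ≠ b → Mixed (η i))
    (hgood : Good (fun h : ι → ℝ => ∏ i, η i (h i))) :
    0 ≤ (-1) ^ (k + 1) * ∫ X : V, (DD^[k + 1] (fun h : ι → ℝ => ∏ i, η i (h i))) (hh r c X) := by
  have : Nonempty ι := ⟨a⟩
  set Θ : (ι → ℝ) → ℝ := fun h => ∏ i, η i (h i) with hΘ
  have hκ : 2 ≤ Fintype.card {i : ι // i ≠ a ∧ i ≠ b} := by
    have := card_ne_ne hab
    omega
  obtain ⟨A, hAinj, hAr, hAb, hAk⟩ := exists_param r hab hr
  have hfinW : Module.finrank ℝ (ℝ × ({i : ι // i ≠ a ∧ i ≠ b} → ℝ)) + 1 = Fintype.card ι := by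
    have := card_ne_ne hab
    simp only [Module.finrank_prod, Module.finrank_self, Module.finrank_fintype_fun_eq_card]
    omega
  have hHaar : (volume : Measure (ℝ × ({i : ι // i ≠ a ∧ i ≠ b} → ℝ))).IsAddHaarMeasure :=
    Measure.prod.instIsAddHaarMeasure _ _
  obtain ⟨C, hC, hred⟩ := reduction_odd (volume : Measure (ℝ × ({i : ι // i ≠ a ∧ i ≠ b} → ℝ))) A hAinj k
    (by omega) r (r a) hAr
  -- the function `S`
  set S : ℝ → ℝ := fun s => ∫ X : V, (DD^[k] Θ) (hh r (fun i => c i - s) X) with hS
  have hSd : HasDerivAt S (∫ X : V, (DD^[k + 1] Θ) (hh r c X)) 0 := by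
    have h1 := hasDerivAt_path (hgood.iter k) (fun _ => r) (fun _ _ => 0) (fun s i => c i - s)
      (fun _ _ => -1) (fun t i => hasDerivAt_const t (r i)) (fun i => continuous_const)
      (fun t i => by simpa using (hasDerivAt_id t).const_sub (c i)) (fun i => continuous_const) 0
    have h2 : ∫ X : V, (DD^[k + 1] Θ) (hh r c X) =
        ∫ X : V, pd (fun i => -(2 * ⟪X - r i, (0 : V)⟫) - (-1)) (DD^[k] Θ)
          (hh r (fun i => c i - 0) X) := by
      refine integral_congr_ae (Eventually.of_forall fun X => ?_)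
      simp only [inner_zero_right, mul_zero, neg_zero, zero_sub, neg_neg, sub_zero]
      rw [Function.iterate_succ_apply']
      rfl
    rw [h2]
    exact h1
  -- product form of the reduced integral
  set ca : ℝ := c a with hca
  set dd : ι → ℝ := fun i => ‖r i - r a‖ ^ 2 - c i + c a with hdd
  have hval : ∀ (s : ℝ) (w : ℝ × ({i : ι // i ≠ a ∧ i ≠ b} → ℝ)) (y : ℝ),
      ENNReal.ofReal (Θ (fun i => hh r (fun i => c i - s) (A w + r a) i + y ^ 2)) =
      ENNReal.ofReal (η a ((‖A w‖ ^ 2 - ca + s) + y ^ 2)) *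
        (ENNReal.ofReal (η b (w.1 + dd b + ((‖A w‖ ^ 2 - ca + s) + y ^ 2))) *
        ∏ k : {i : ι // i ≠ a ∧ i ≠ b}, ENNReal.ofReal (η k (w.2 k + dd k + ((‖A w‖ ^ 2 - ca + s) + y ^ 2)))) := by
    intro s w y
    have hgen : ∀ i, hh r (fun i => c i - s) (A w + r a) i + y ^ 2 =
        (-2 * ⟪A w, r i - r a⟫) + dd i + ((‖A w‖ ^ 2 - ca + s) + y ^ 2) := by
      intro i
      unfold hh
      have h1 : A w + r a - r i = A w - (r i - r a) := by abel
      rw [h1, norm_sub_sq_real]
      simp only [hdd, hca]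
      ring
    simp only [hΘ]
    rw [ENNReal.ofReal_prod_of_nonneg (fun i _ => hη0 i _), prod_split hab]
    simp only [hgen, hAb, hAk]
    congr 3
    simp [hdd]
  have hanti : Antitone fun s => ∫ w : ℝ × ({i : ι // i ≠ a ∧ i ≠ b} → ℝ), (∫ y in Ioi (0 : ℝ),
      Θ (fun i => hh r (fun i => c i - s) (A w + r a) i + y ^ 2)) := by
    have hof : ∀ s : ℝ, ENNReal.ofReal (∫ w : ℝ × ({i : ι // i ≠ a ∧ i ≠ b} → ℝ), (∫ y in Ioi (0 : ℝ),
        Θ (fun i => hh r (fun i => c i - s) (A w + r a) i + y ^ 2))) =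
        ∫⁻ w : ℝ × ({i : ι // i ≠ a ∧ i ≠ b} → ℝ), ∫⁻ y in Ioi (0 : ℝ),
          ENNReal.ofReal (Θ (fun i => hh r (fun i => c i - s) (A w + r a) i + y ^ 2)) := by
      intro s
      have hint := integrable_half (volume : Measure (ℝ × ({i : ι // i ≠ a ∧ i ≠ b} → ℝ))) A hAinj hgood r
        (fun i => c i - s) (r a)
      rw [← integral_prod _ hint, ofReal_integral_eq_lintegral_ofReal hint
        (Eventually.of_forall fun p => Finset.prod_nonneg fun i _ => hη0 i _)]
      rw [lintegral_prod]
      exact hint.aestronglyMeasurable.aemeasurable.ennreal_ofReal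
    have hlint := sign_lintegral hκ A hAinj (fun x => ENNReal.ofReal (η a x))
      (fun x => ENNReal.ofReal (η b x)) (ENNReal.measurable_ofReal.comp (hηc a).measurable)
      (ENNReal.measurable_ofReal.comp (hηc b).measurable) (fun k : {i : ι // i ≠ a ∧ i ≠ b} => η k)
      (fun k => hηM k k.2.1 k.2.2) (fun k => (hηc k).measurable) ca (dd b) (fun k => dd k)
    intro s₁ s₂ h12
    have h0 : ∀ s, 0 ≤ ∫ w : ℝ × ({i : ι // i ≠ a ∧ i ≠ b} → ℝ), (∫ y in Ioi (0 : ℝ),
      Θ (fun i => hh r (fun i => c i - s) (A w + r a) i + y ^ 2)) := fun s =>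
      integral_nonneg fun w => setIntegral_nonneg measurableSet_Ioi fun y _ =>
        Finset.prod_nonneg fun i _ => hη0 i _
    simp only
    rw [← ENNReal.ofReal_le_ofReal_iff (h0 s₁), hof, hof]
    simp_rw [hval]
    exact hlint h12
  have hSanti : Antitone fun s => (-1 : ℝ) ^ k * S s := by
    intro s₁ s₂ h12
    simp only [hS]
    rw [hred Θ hgood, hred Θ hgood, ← mul_assoc, ← mul_assoc, ← mul_assoc, ← mul_assoc]
    have h1 : (-1 : ℝ) ^ k * (-1) ^ k = 1 := by
      rw [← mul_pow]; simp
    rw [h1, one_mul]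
    exact mul_le_mul_of_nonneg_left (hanti h12) hC.le
  have h2 := (hSd.const_mul ((-1 : ℝ) ^ k)).nonpos_of_antitone hSanti
  rw [pow_succ]
  linarith

end sign

end KP
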